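import Pool.Agent.TH553.GP.EC

set_option autoImplicit false
set_option linter.unusedSectionVars false

/-!
# Extensions of the base field
-/

namespace Pool.Agent.TH553.GP

open Complex Filter Topology ComplexConjugate MeasureTheory NumberField IsDedekindDomain Asymptotics
  Pool.Agent.W401.Cheb Pool.Agent.W540.BE Pool.Agent.TH553.RS Pool.Agent.TH553.ST
open Pool.Agent.H341R2 (lam lam_tendsto)
open Pool.Agent.W353.NF (fixn cz act act_apply act_trans burnside fixn_conj fixn_mul_ker fixn_le abs_cz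
  ker_act_open fixn_inv)

/-- Burnside's lemma for pairs. -/
theorem burnside2 {G Y : Type*} [Group G] [Finite G] [Finite Y]
    (a : G →* Equiv.Perm Y) :
    ∑ᶠ g : G, ((Nat.card {y // a g y = y} : ℕ) : ℝ) ^ 2 =
      (Nat.card (Quot fun p q : Y × Y => ∃ g, a g p.1 = q.1 ∧ a g p.2 = q.2) : ℝ) * Nat.card G := by
  classical
  let _ : Fintype G := Fintype.ofFinite G
  let _ : Fintype Y := Fintype.ofFinite Y
  let _ : MulAction G (Y × Y) :=
    { smul := fun g p => (a g p.1, a g p.2)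
      one_smul := fun p => by
        change (a 1 p.1, a 1 p.2) = p
        rw [map_one]
        rfl
      mul_smul := fun g h p => by
        change (a (g * h) p.1, a (g * h) p.2) = (a g (a h p.1), a g (a h p.2))
        rw [map_mul]
        rfl }
  have hsm : ∀ (g : G) (p : Y × Y), g • p = (a g p.1, a g p.2) := fun g p => rfl
  let _ : Fintype (Quotient (MulAction.orbitRel G (Y × Y))) := Fintype.ofFinite _
  have h1 := MulAction.sum_card_fixedBy_eq_card_orbits_mul_card_group G (Y × Y)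
  have h2 : Nat.card (Quot fun p q : Y × Y => ∃ g, a g p.1 = q.1 ∧ a g p.2 = q.2) =
      Fintype.card (Quotient (MulAction.orbitRel G (Y × Y))) := by
    rw [← Nat.card_eq_fintype_card]
    refine Nat.card_congr (Quot.congrRight fun p q => ?_)
    constructor
    · rintro ⟨g, h3, h4⟩
      refine ⟨g⁻¹, ?_⟩
      change g⁻¹ • q = p
      rw [inv_smul_eq_iff, hsm, h3, h4]
    · rintro ⟨g, hg⟩
      have hg' : g • q = p := hg
      refine ⟨g⁻¹, ?_⟩
      have h5 : g⁻¹ • p = q := by rw [← hg', inv_smul_smul]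
      rw [hsm] at h5
      exact ⟨congrArg Prod.fst h5, congrArg Prod.snd h5⟩
  rw [h2, Nat.card_eq_fintype_card (α := G), ← Nat.cast_mul, ← h1, finsum_eq_sum_of_fintype,
    Nat.cast_sum]
  refine Finset.sum_congr rfl fun g _ => ?_
  rw [← Nat.cast_pow]
  congr 1
  rw [sq, ← Nat.card_prod, Nat.card_eq_fintype_card]
  refine Fintype.card_congr
    { toFun := fun p => ⟨(p.1.1, p.2.1), by
        change g • (p.1.1, p.2.1) = (p.1.1, p.2.1)
        rw [hsm]
        exact Prod.ext p.1.2 p.2.2⟩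
      invFun := fun p => (⟨p.1.1, by
        have h3 : g • p.1 = p.1 := p.2
        rw [hsm] at h3
        exact congrArg Prod.fst h3⟩, ⟨p.1.2, by
        have h3 : g • p.1 = p.1 := p.2
        rw [hsm] at h3
        exact congrArg Prod.snd h3⟩)
      left_inv := fun p => rfl
      right_inv := fun p => rfl }

section

variable {K : Type} [Field K] [NumberField K] (F : Type) [Field F] [NumberField F] [Algebra K F]

variable (K) in
/-- the number of orbits on pairs of embeddings -/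
noncomputable def po : ℕ := Nat.card (Quot fun p q :
  (F →ₐ[K] AlgebraicClosure K) × (F →ₐ[K] AlgebraicClosure K) =>
    ∃ σ : GK K, act K F σ p.1 = q.1 ∧ act K F σ p.2 = q.2)

instance : Finite (GK K ⧸ (act K F).ker) :=
  Subgroup.quotient_finite_of_isOpen _ (ker_act_open K F)

theorem fixn_out (q : GK K ⧸ (act K F).ker) : fixn K F q.out =
    Nat.card {i // QuotientGroup.kerLift (act K F) q i = i} := by
  unfold fixn
  have h1 : QuotientGroup.kerLift (act K F) q = act K F q.out := by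
    conv_lhs => rw [← QuotientGroup.out_eq' q]
    rfl
  rw [h1]

instance : Nonempty (F →ₐ[K] AlgebraicClosure K) := by
  have h : 0 < Fintype.card (F →ₐ[K] AlgebraicClosure K) := by
    rw [AlgHom.card K F (AlgebraicClosure K)]
    exact Module.finrank_pos
  exact Fintype.card_pos_iff.1 h

theorem sum_fix : ∑ᶠ q : GK K ⧸ (act K F).ker, (fixn K F q.out : ℝ) =
    Nat.card (GK K ⧸ (act K F).ker) := by
  have h1 := burnside (QuotientGroup.kerLift (act K F)) (fun x y => by
    obtain ⟨σ, hσ⟩ := act_trans K F x y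
    exact ⟨QuotientGroup.mk σ, hσ⟩)
  rw [← h1]
  exact finsum_congr fun q => by rw [fixn_out]

theorem sum_fix2 : ∑ᶠ q : GK K ⧸ (act K F).ker, (fixn K F q.out : ℝ) ^ 2 =
    (po K F : ℝ) * Nat.card (GK K ⧸ (act K F).ker) := by
  have h1 := burnside2 (QuotientGroup.kerLift (act K F))
  have h2 : po K F = Nat.card (Quot fun p q :
      (F →ₐ[K] AlgebraicClosure K) × (F →ₐ[K] AlgebraicClosure K) =>
      ∃ g, QuotientGroup.kerLift (act K F) g p.1 = q.1 ∧
        QuotientGroup.kerLift (act K F) g p.2 = q.2) := by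
    unfold po
    refine Nat.card_congr (Quot.congrRight fun p q => ?_)
    constructor
    · rintro ⟨σ, h3, h4⟩
      exact ⟨QuotientGroup.mk σ, h3, h4⟩
    · rintro ⟨g, h3, h4⟩
      obtain ⟨σ, rfl⟩ := QuotientGroup.mk_surjective g
      exact ⟨σ, h3, h4⟩
  rw [h2, ← h1]
  exact finsum_congr fun q => by rw [fixn_out]

variable {σ : HeightOneSpectrum (𝓞 K) → GK K}

/-- the mean value of a real class function -/
theorem M_real (U : Subgroup (GK K)) [U.Normal] [Finite (GK K ⧸ U)]
    (hU : IsOpen (U : Set (GK K))) {Ψ : GK K → ℝ}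
    (h1 : ∀ g, ∀ u ∈ U, Ψ (g * u) = Ψ g) (h2 : ∀ g k, Ψ (k * g * k⁻¹) = Ψ g)
    (hσ : ∀ v, IsFrob v (σ v)) {V : Ultrafilter ℝ} (hV : (V : Filter ℝ) ≤ 𝓝[>] 0) :
    (M (nm K) V fun v => Ψ (σ v)) = (∑ᶠ q : GK K ⧸ U, Ψ q.out) / Nat.card (GK K ⧸ U) := by
  classical
  let _ : Fintype (GK K ⧸ U) := Fintype.ofFinite _
  have hout : ∀ g : GK K, Ψ (QuotientGroup.mk g : GK K ⧸ U).out = Ψ g := by
    intro g
    have e2 : (QuotientGroup.mk (QuotientGroup.mk g : GK K ⧸ U).out : GK K ⧸ U) =
        QuotientGroup.mk g := QuotientGroup.out_eq' _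
    have e3 := h1 (QuotientGroup.mk g : GK K ⧸ U).out _ (QuotientGroup.eq.1 e2)
    rw [← e3]
    congr 1
    group
  have h3 := M_class U hU (fun q => ((Ψ q.out : ℝ) : ℂ)) (fun a g => by
    obtain ⟨a, rfl⟩ := QuotientGroup.mk_surjective a
    obtain ⟨g, rfl⟩ := QuotientGroup.mk_surjective g
    rw [← QuotientGroup.mk_mul, ← QuotientGroup.mk_inv, ← QuotientGroup.mk_mul, hout, hout, h2]) hσ
    (c := (∑ᶠ q : GK K ⧸ U, Ψ q.out) / Nat.card (GK K ⧸ U)) (by
      rw [finsum_eq_sum_of_fintype, finsum_eq_sum_of_fintype]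
      push_cast
      rw [inv_mul_eq_div]) 0
  rw [if_pos rfl] at h3
  have h4 : (fun v => (((Ψ (QuotientGroup.mk (σ v) : GK K ⧸ U).out : ℝ) : ℂ) *
      ((nm K v : ℕ) : ℂ) ^ (-(((0 : ℝ) : ℂ) * I))).re) = fun v => Ψ (σ v) := by
    funext v
    rw [hout]
    simp
  rw [h4] at h3
  exact M_of_tendsto hV h3

theorem M_fix (hσ : ∀ v, IsFrob v (σ v)) {V : Ultrafilter ℝ} (hV : (V : Filter ℝ) ≤ 𝓝[>] 0) :
    (M (nm K) V fun v => (fixn K F (σ v) : ℝ)) = 1 := by
  rw [M_real (act K F).ker (ker_act_open K F) (Ψ := fun g => (fixn K F g : ℝ))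
    (fun g u hu => by
      rw [fixn_mul_ker K F g u (MonoidHom.mem_ker.1 hu)])
    (fun g k => by rw [fixn_conj]) hσ hV, sum_fix]
  have : (Nat.card (GK K ⧸ (act K F).ker) : ℝ) ≠ 0 := by exact_mod_cast Nat.card_pos.ne'
  exact div_self this

theorem M_fix2 (hσ : ∀ v, IsFrob v (σ v)) {V : Ultrafilter ℝ} (hV : (V : Filter ℝ) ≤ 𝓝[>] 0) :
    (M (nm K) V fun v => (fixn K F (σ v) : ℝ) ^ 2) = po K F := by
  rw [M_real (act K F).ker (ker_act_open K F) (Ψ := fun g => (fixn K F g : ℝ) ^ 2)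
    (fun g u hu => by
      rw [fixn_mul_ker K F g u (MonoidHom.mem_ker.1 hu)])
    (fun g k => by rw [fixn_conj]) hσ hV, sum_fix2]
  have : (Nat.card (GK K ⧸ (act K F).ker) : ℝ) ≠ 0 := by exact_mod_cast Nat.card_pos.ne'
  field_simp

theorem bd_fix (σ : HeightOneSpectrum (𝓞 K) → GK K) : Bd fun v => (fixn K F (σ v) : ℝ) :=
  ⟨Module.finrank ℚ F, fun v => by rw [Nat.abs_cast]; exact fixn_le (σ v)⟩

/-- the second moment of the number of fixed embeddings minus one -/
theorem M_fix_sub (hσ : ∀ v, IsFrob v (σ v)) {V : Ultrafilter ℝ} (hV : (V : Filter ℝ) ≤ 𝓝[>] 0) :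
    (M (nm K) V fun v => ((fixn K F (σ v) : ℝ) - 1) ^ 2) = po K F - 1 := by
  have hN := sysF K
  have e : (fun v => ((fixn K F (σ v) : ℝ) - 1) ^ 2) =
      fun v => ((fixn K F (σ v) : ℝ) ^ 2 + (-2) * (fixn K F (σ v) : ℝ)) + 1 := by
    funext v
    ring
  rw [e, M_add hN hV ((bd_fix F σ).sq.add ((bd_fix F σ).const_mul _)) (Bd.const 1),
    M_add hN hV (bd_fix F σ).sq ((bd_fix F σ).const_mul _), M_const_mul hN hV (bd_fix F σ),
    M_fix2 F hσ hV, M_fix F hσ hV, M_const hN hV]
  ring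

/-- an inequality for one function -/
theorem one_ineq {P : Type*} {N : P → ℕ} (hN : Sys N) {V : Ultrafilter ℝ}
    (hV : (V : Filter ℝ) ≤ 𝓝[>] 0) {t u : P → ℝ} (ht : Bd t) (hu : Bd u)
    (t2 : (M N V fun p => t p ^ 2) ≤ 1) {A : ℝ}
    (hg : ∀ c : ℝ, 1 - A ≤ M N V fun p => (t p - c * u p) ^ 2) :
    (M N V fun p => t p * u p) ^ 2 ≤ A * M N V fun p => u p ^ 2 := by
  have key : ∀ s : ℝ, 0 ≤ (M N V fun p => u p ^ 2) * (s * s) +
      (-2 * M N V fun p => t p * u p) * s + A := by
    intro s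
    have h4 := hg s
    rw [M_expand hN hV ht (hu.const_mul s)] at h4
    have e1 : (fun p => t p * (s * u p)) = fun p => s * (t p * u p) := by
      funext p
      ring
    have e2 : (fun p => (s * u p) ^ 2) = fun p => (s * s) * u p ^ 2 := by
      funext p
      ring
    rw [e1, e2, M_const_mul hN hV (ht.mul hu), M_const_mul hN hV hu.sq] at h4
    linarith
  have h5 := discrim_le_zero key
  rw [discrim] at h5
  nlinarith

variable {y : HeightOneSpectrum (𝓞 K) → An}

/-- the trace and the fixed embeddings, without the trivial part -/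
theorem M_ff_gen (hσ : ∀ v, IsFrob v (σ v)) {V : Ultrafilter ℝ} (hV : (V : Filter ℝ) ≤ 𝓝[>] 0)
    (hL : LH (nm K) V y nu) (τ : ℝ) (U : Subgroup (GK K)) [U.Normal] [Finite (GK K ⧸ U)]
    (hUF : ∀ u ∈ U, act K F u = 1) :
    (M (nm K) V fun v => 2 * Real.cos (y v) * ff F σ τ v) ^ 2 ≤
      (1 - gp (Nat.card (ConjClasses (GK K ⧸ U)))) * ((po K F : ℝ) - 1) := by
  have hN := sysF K
  have hz : ∀ v, (((nm K v : ℕ) : ℂ) ^ (-(τ * I))).re = cz τ v := fun v => rfl
  have hbz : Bd fun v : HeightOneSpectrum (𝓞 K) => cz τ v := ⟨1, abs_cz τ⟩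
  set u : HeightOneSpectrum (𝓞 K) → ℝ := fun v => ((fixn K F (σ v) : ℝ) - 1) * cz τ v with hu
  have hbu : Bd u := ((bd_fix F σ).sub (Bd.const 1)).mul hbz
  have hbt := bd_y y
  have h1 : (M (nm K) V fun v => 2 * Real.cos (y v) * ff F σ τ v) =
      M (nm K) V fun v => 2 * Real.cos (y v) * u v := by
    have h2 := M_first hV hL τ
    have e : (fun v => 2 * Real.cos (y v) * ff F σ τ v) =
        fun v => 2 * Real.cos (y v) * u v + 2 * Real.cos (y v) * cz τ v := by
      funext v
      rw [hu]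
      unfold ff
      ring
    rw [e, M_add hN hV (hbt.mul hbu) (hbt.mul hbz)]
    have e2 : (M (nm K) V fun v => 2 * Real.cos (y v) * cz τ v) = 0 := h2
    rw [e2, add_zero]
  rw [h1]
  have h3 := one_ineq hN hV hbt hbu (M_two hV hL).le
    (A := 1 - gp (Nat.card (ConjClasses (GK K ⧸ U)))) (fun c => by
      rw [sub_sub_cancel]
      have h4 := gap_cls U (σ := σ) hV hL (κ := Unit) (fun _ => τ)
        (Ψ := fun _ g => (((fixn K F g : ℝ) - 1 : ℝ) : ℂ))
        (fun _ g u hu => by
          rw [fixn_mul_ker K F g u (hUF u hu)])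
        (fun _ g k => by rw [fixn_conj]) (fun _ => c)
      refine h4.trans (le_of_eq ?_)
      congr 1
      funext v
      rw [Finset.univ_unique, Finset.sum_singleton]
      unfold uc
      rw [Complex.re_ofReal_mul, hz])
  refine h3.trans (mul_le_mul_of_nonneg_left ?_ ?_)
  · rw [← M_fix_sub F hσ hV]
    refine M_mono hN hV hbu.sq ((bd_fix F σ).sub (Bd.const 1)).sq fun v => ?_
    rw [hu]
    simp only
    rw [mul_pow]
    have h5 := abs_cz τ v
    have h6 : cz τ v ^ 2 ≤ 1 := by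
      rw [← sq_abs]
      exact pow_le_one₀ (abs_nonneg _) h5
    exact mul_le_of_le_one_right (sq_nonneg _) h6
  · have : 0 < Nat.card (ConjClasses (GK K ⧸ U)) := by
      have : Nonempty (ConjClasses (GK K ⧸ U)) := ⟨ConjClasses.mk 1⟩
      exact Nat.card_pos
    linarith [gp_lt this]

theorem M_ff (hσ : ∀ v, IsFrob v (σ v)) {V : Ultrafilter ℝ} (hV : (V : Filter ℝ) ≤ 𝓝[>] 0)
    (hL : LH (nm K) V y nu) (τ : ℝ) :
    (M (nm K) V fun v => 2 * Real.cos (y v) * ff F σ τ v) ^ 2 ≤
      (1 - gp (Nat.card (ConjClasses (GK K ⧸ (act K F).ker)))) * ((po K F : ℝ) - 1) :=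
  M_ff_gen F hσ hV hL τ _ fun _ hu => MonoidHom.mem_ker.1 hu

/-- **A bound for all extensions.** -/
theorem M_ff_abs (hσ : ∀ v, IsFrob v (σ v)) {V : Ultrafilter ℝ} (hV : (V : Filter ℝ) ≤ 𝓝[>] 0)
    (hL : LH (nm K) V y nu) (τ : ℝ) :
    |M (nm K) V fun v => 2 * Real.cos (y v) * ff F σ τ v| ≤
      2 - 1 / (2 * (Module.finrank K F : ℝ)) := by
  have hN := sysF K
  have hpi := Real.pi_pos
  have hn : (0 : ℝ) < Module.finrank K F := by exact_mod_cast Module.finrank_pos
  set n : ℝ := (Module.finrank K F : ℝ) with hndef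
  set δ : ℝ := 1 / n with hδ
  have hδ0 : 0 < δ := by rw [hδ]; positivity
  have hbz : Bd fun v : HeightOneSpectrum (𝓞 K) => cz τ v := ⟨1, abs_cz τ⟩
  have hbt := bd_y y
  -- the number of fixed embeddings is at most the degree
  have hfn : ∀ v, (fixn K F (σ v) : ℝ) ≤ n := by
    intro v
    have h1 : fixn K F (σ v) ≤ Nat.card (F →ₐ[K] AlgebraicClosure K) := by
      unfold fixn
      exact Nat.card_le_card_of_injective Subtype.val Subtype.val_injective
    have h2 : Nat.card (F →ₐ[K] AlgebraicClosure K) = Module.finrank K F := by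
      rw [Nat.card_eq_fintype_card]
      exact AlgHom.card K F (AlgebraicClosure K)
    rw [h2] at h1
    rw [hndef]
    exact_mod_cast h1
  set h : An → ℝ := fun t => max (1 - (2 - |2 * Real.cos t|) / δ) 0 with hh
  have hhc : Continuous h := by
    rw [hh]
    fun_prop
  have hhb : Bd fun v => h (y v) := by
    obtain ⟨C, hC⟩ := (isCompact_univ (X := An)).exists_bound_of_continuousOn hhc.continuousOn
    exact ⟨C, fun v => hC _ (Set.mem_univ _)⟩
  have hcos : ∀ t : An, |2 * Real.cos t| ≤ 2 := fun t => by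
    rw [abs_mul, abs_two]
    have := Real.abs_cos_le_one t
    linarith
  -- the mean value of the bump
  have hMh : (M (nm K) V fun v => h (y v)) ≤ δ / 2 := by
    have h1 := M_nu hV hL hhc 0
    have e : (fun v => h (y v) * (((nm K v : ℕ) : ℂ) ^ (-(((0 : ℝ) : ℂ) * I))).re) =
        fun v => h (y v) := by
      funext v
      simp
    rw [e, if_pos rfl] at h1
    rw [h1]
    have h2 : ∫ t, h t ∂nu = ∫ θ in (0 : ℝ)..Real.pi, dens θ •
        max (1 - (2 - |2 * Real.cos θ|) / δ) 0 := int_nu (fun θ => max (1 - (2 - |2 * Real.cos θ|) / δ) 0)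
    rw [h2]
    have h3 : ∫ θ in (0 : ℝ)..Real.pi, dens θ • max (1 - (2 - |2 * Real.cos θ|) / δ) 0 ≤
        ∫ _θ in (0 : ℝ)..Real.pi, 2 / Real.pi * (δ / 4) := by
      refine intervalIntegral.integral_mono_on hpi.le
        ((dens_cont.smul (by fun_prop)).intervalIntegrable _ _)
        (continuous_const.intervalIntegrable _ _) fun θ _ => ?_
      rw [smul_eq_mul]
      unfold dens
      rw [mul_assoc]
      refine mul_le_mul_of_nonneg_left ?_ (by positivity)
      set s : ℝ := 2 - |2 * Real.cos θ| with hs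
      have hcs : |2 * Real.cos θ| ≤ 2 := by
        rw [abs_mul, abs_two]
        have := Real.abs_cos_le_one θ
        linarith
      have hs0 : 0 ≤ s := by rw [hs]; linarith
      have hsin : Real.sin θ ^ 2 ≤ s := by
        have h4 : Real.sin θ ^ 2 = 1 - |2 * Real.cos θ| ^ 2 / 4 := by
          rw [sq_abs]
          have := Real.sin_sq_add_cos_sq θ
          nlinarith
        rw [h4, hs]
        have h5 := abs_nonneg (2 * Real.cos θ)
        nlinarith
      rcases le_or_gt (1 - s / δ) 0 with h4 | h4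
      · rw [max_eq_right h4, mul_zero]
        positivity
      · rw [max_eq_left h4.le]
        have h5 : Real.sin θ ^ 2 * (1 - s / δ) ≤ s * (1 - s / δ) :=
          mul_le_mul_of_nonneg_right hsin h4.le
        refine h5.trans ?_
        have h6 : δ / 4 - s * (1 - s / δ) = (2 * s - δ) ^ 2 / (4 * δ) := by
          field_simp
          ring
        have h7 : 0 ≤ (2 * s - δ) ^ 2 / (4 * δ) := by positivity
        linarith
    refine h3.trans (le_of_eq ?_)
    rw [intervalIntegral.integral_const]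
    simp only [sub_zero, smul_eq_mul]
    field_simp
    norm_num
  -- the pointwise inequality
  have hpt : ∀ v, |2 * Real.cos (y v) * ff F σ τ v| ≤
      2 * (fixn K F (σ v) : ℝ) - (δ * (fixn K F (σ v) : ℝ) - δ * n * h (y v)) := by
    intro v
    set f : ℝ := (fixn K F (σ v) : ℝ) with hf
    have hf0 : 0 ≤ f := by rw [hf]; positivity
    have hfn' : f ≤ n := hfn v
    have h1 : |2 * Real.cos (y v) * ff F σ τ v| ≤ |2 * Real.cos (y v)| * f := by
      rw [abs_mul]
      refine mul_le_mul_of_nonneg_left ?_ (abs_nonneg _)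
      unfold ff
      rw [abs_mul, Nat.abs_cast]
      exact mul_le_of_le_one_right hf0 (abs_cz τ v)
    refine h1.trans ?_
    set s : ℝ := 2 - |2 * Real.cos (y v)| with hs
    have hs0 : 0 ≤ s := by
      rw [hs]
      linarith [hcos (y v)]
    have h2 : |2 * Real.cos (y v)| = 2 - s := by rw [hs]; ring
    rw [h2]
    have h3 : h (y v) = max (1 - s / δ) 0 := rfl
    rw [h3]
    rcases le_or_gt (1 - s / δ) 0 with h4 | h4
    · rw [max_eq_right h4]
      have h5 : δ ≤ s := by
        rw [sub_nonpos, one_le_div hδ0] at h4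
        exact h4
      nlinarith
    · rw [max_eq_left h4.le]
      have h5 : δ * n * (1 - s / δ) = n * (δ - s) := by
        field_simp
      rw [h5]
      have h6 : 0 ≤ δ - s := by
        have h7 : s / δ < 1 := by linarith
        rw [div_lt_one hδ0] at h7
        linarith
      nlinarith
  have hbf := bd_fix F σ
  have hbr : Bd fun v => 2 * (fixn K F (σ v) : ℝ) - (δ * (fixn K F (σ v) : ℝ) - δ * n * h (y v)) :=
    (hbf.const_mul 2).sub ((hbf.const_mul δ).sub (hhb.const_mul (δ * n)))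
  have hval : (M (nm K) V fun v => 2 * (fixn K F (σ v) : ℝ) -
      (δ * (fixn K F (σ v) : ℝ) - δ * n * h (y v))) ≤ 2 - 1 / (2 * n) := by
    rw [M_sub hN hV (hbf.const_mul 2) ((hbf.const_mul δ).sub (hhb.const_mul (δ * n))),
      M_sub hN hV (hbf.const_mul δ) (hhb.const_mul (δ * n)), M_const_mul hN hV hbf,
      M_const_mul hN hV hbf, M_const_mul hN hV hhb, M_fix F hσ hV]
    have h1 : δ * n = 1 := by
      rw [hδ]
      field_simp
    rw [h1, one_mul, mul_one, mul_one]
    have h2 : 1 / (2 * n) = δ / 2 := by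
      rw [hδ]
      field_simp
    rw [h2]
    linarith
  have hbm : Bd fun v => 2 * Real.cos (y v) * ff F σ τ v := hbt.mul (bd_ff F σ τ)
  rw [abs_le]
  constructor
  · have h1 := M_mono hN hV hbm.neg hbr fun v => (neg_le_abs _).trans (hpt v)
    rw [M_neg hN hV hbm] at h1
    linarith
  · exact (M_mono hN hV hbm hbr fun v => (le_abs_self _).trans (hpt v)).trans hval

/-- the correlation vanishes if the Artin twists have no zeros or poles -/
theorem M_ff_zero {V : Ultrafilter ℝ} (hV : (V : Filter ℝ) ≤ 𝓝[>] 0)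
    (τ : ℝ) {κ : Type} [Fintype κ] {n : κ → ℕ} {ρ : ∀ k, Representation ℂ (GK K) (Fin (n k) → ℂ)}
    (hρ : ∀ k, Open (ρ k)) (c : κ → ℝ) (hc : ∀ g, (fixn K F g : ℂ) = ∑ k, (c k : ℂ) * (ρ k).character g)
    (h0 : ∀ k, (M (nm K) V fun v => 2 * Real.cos (y v) * vr σ (ρ k) τ v) = 0) :
    (M (nm K) V fun v => 2 * Real.cos (y v) * ff F σ τ v) = 0 := by
  have hN := sysF K
  have hbt := bd_y y
  have e : (fun v => 2 * Real.cos (y v) * ff F σ τ v) =
      fun v => ∑ k, c k * (2 * Real.cos (y v) * vr σ (ρ k) τ v) := by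
    funext v
    have h1 : ff F σ τ v = ∑ k, c k * vr σ (ρ k) τ v := by
      unfold ff vr vc
      have h2 : ((fixn K F (σ v) : ℝ) * cz τ v) =
          (((nm K v : ℕ) : ℂ) ^ (-(τ * I)) * (fixn K F (σ v) : ℂ)).re := by
        have h3 : ((fixn K F (σ v) : ℕ) : ℂ) = ((fixn K F (σ v) : ℝ) : ℂ) := by push_cast; rfl
        rw [h3, mul_comm (((nm K v : ℕ) : ℂ) ^ (-(τ * I))), Complex.re_ofReal_mul]
        rfl
      have h3 : (fixn K F (σ v) : ℂ) = ∑ k, (c k : ℂ) * (ρ k).character (σ v)⁻¹ := by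
        rw [← hc (σ v)⁻¹, fixn_inv]
      rw [h2, h3, Finset.mul_sum, Complex.re_sum]
      refine Finset.sum_congr rfl fun k _ => ?_
      rw [mul_left_comm, Complex.re_ofReal_mul]
    rw [h1, Finset.mul_sum]
    exact Finset.sum_congr rfl fun k _ => by ring
  have hb : ∀ k, Bd fun v => 2 * Real.cos (y v) * vr σ (ρ k) τ v := fun k =>
    hbt.mul (bd_vr σ (hρ k) τ)
  rw [e, M_sum hN hV _ fun k _ => (hb k).const_mul _]
  refine Finset.sum_eq_zero fun k _ => ?_
  rw [M_const_mul hN hV (hb k), h0 k, mul_zero]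

end

end Pool.Agent.TH553.GP
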