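import Pool.Agent.TH553.RS.Bessel

set_option autoImplicit false
set_option linter.unusedSectionVars false

/-!
# Inequalities with a gap
-/

namespace Pool.Agent.TH553.GP

open Complex Filter Topology Pool.Agent.H341R2 Pool.Agent.W540.BE Pool.Agent.TH553.RS

section

variable {P : Type*} {N : P → ℕ} {κ : Type*} [Fintype κ]

/-- the mean of a square -/
theorem M_expand (hN : Sys N) {U : Ultrafilter ℝ} (hU : (U : Filter ℝ) ≤ 𝓝[>] 0) {t v : P → ℝ}
    (ht : Bd t) (hv : Bd v) : (M N U fun p => (t p - v p) ^ 2) =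
      (M N U fun p => t p ^ 2) - 2 * (M N U fun p => t p * v p) + M N U fun p => v p ^ 2 := by
  have e : (fun p => (t p - v p) ^ 2) = fun p => (t p ^ 2 + (-2) * (t p * v p)) + v p ^ 2 := by
    funext p
    ring
  rw [e, M_add hN hU (ht.sq.add ((ht.mul hv).const_mul _)) hv.sq,
    M_add hN hU ht.sq ((ht.mul hv).const_mul _), M_const_mul hN hU (ht.mul hv)]
  ring

/-- the data: a bounded function `t` whose square has mean value at most one and whose distance to the
linear combinations of the functions `u k` is bounded from below -/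
structure Dg (N : P → ℕ) (t : P → ℝ) (u : κ → P → ℝ) (g : κ → κ → ℝ)
    (x : κ → ℝ → ℝ) (A : ℝ) : Prop where
  sys : Sys N
  bt : Bd t
  t2 : ∀ U : Ultrafilter ℝ, (U : Filter ℝ) ≤ 𝓝[>] 0 → M N U (fun p => t p ^ 2) ≤ 1
  bu : ∀ k, Bd (u k)
  gr : ∀ k l, Tendsto (qt N fun p => u k p * u l p) (𝓝[>] 0) (𝓝 (g k l))
  cx : ∀ k, Tendsto (fun ε => qt N (fun p => t p * u k p) ε - x k ε) (𝓝[>] 0) (𝓝 0)
  gap : ∀ U : Ultrafilter ℝ, (U : Filter ℝ) ≤ 𝓝[>] 0 → ∀ c : κ → ℝ,
    1 - A ≤ M N U fun p => (t p - ∑ k, c k * u k p) ^ 2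

variable {t : P → ℝ} {u : κ → P → ℝ} {g : κ → κ → ℝ} {x : κ → ℝ → ℝ} {A : ℝ}

theorem Dg.lim (D : Dg N t u g x A) {U : Ultrafilter ℝ} (hU : (U : Filter ℝ) ≤ 𝓝[>] 0) (k : κ) :
    Tendsto (x k) U (𝓝 (M N U fun p => t p * u k p)) := by
  have h1 := M_lim D.sys hU (D.bt.mul (D.bu k))
  have h2 := h1.sub ((D.cx k).mono_left hU)
  rw [sub_zero] at h2
  exact h2.congr fun ε => by ring

theorem Dg.gram (D : Dg N t u g x A) {U : Ultrafilter ℝ} (hU : (U : Filter ℝ) ≤ 𝓝[>] 0)
    (c : κ → ℝ) : (∑ k, c k * M N U fun p => t p * u k p) ^ 2 ≤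
      A * ∑ k, ∑ l, (c k * c l) * g k l := by
  have hN := D.sys
  have hs : Bd fun p => ∑ k, c k * u k p := Bd.sum _ fun k _ => (D.bu k).const_mul (c k)
  have h2 : (M N U fun p => t p * ∑ k, c k * u k p) =
      ∑ k, c k * M N U fun p => t p * u k p := by
    have e : (fun p => t p * ∑ k, c k * u k p) =
        fun p => ∑ k, c k * (t p * u k p) := by
      funext p
      rw [Finset.mul_sum]
      exact Finset.sum_congr rfl fun k _ => by ring
    rw [e, M_sum hN hU _ fun k _ => (D.bt.mul (D.bu k)).const_mul (c k)]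
    exact Finset.sum_congr rfl fun k _ => M_const_mul hN hU (D.bt.mul (D.bu k)) _
  have h3 : (M N U fun p => (∑ k, c k * u k p) ^ 2) =
      ∑ k, ∑ l, (c k * c l) * g k l := by
    have e : (fun p => (∑ k, c k * u k p) ^ 2) =
        fun p => ∑ k, ∑ l, (c k * c l) * (u k p * u l p) := by
      funext p
      rw [sq, Finset.sum_mul_sum]
      exact Finset.sum_congr rfl fun k _ => Finset.sum_congr rfl fun l _ => by ring
    rw [e, M_sum hN hU _ fun k _ => Bd.sum _ fun l _ => ((D.bu k).mul (D.bu l)).const_mul _]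
    refine Finset.sum_congr rfl fun k _ => ?_
    rw [M_sum hN hU _ fun l _ => ((D.bu k).mul (D.bu l)).const_mul _]
    exact Finset.sum_congr rfl fun l _ => by
      rw [M_const_mul hN hU ((D.bu k).mul (D.bu l)), M_of_tendsto hU (D.gr k l)]
  set B := ∑ k, c k * M N U fun p => t p * u k p with hB
  set Q := ∑ k, ∑ l, (c k * c l) * g k l with hQ
  have key : ∀ s : ℝ, 0 ≤ Q * (s * s) + (-2 * B) * s + A := by
    intro s
    have h4 := D.gap U hU fun k => s * c k
    have e : (fun p => (t p - ∑ k, s * c k * u k p) ^ 2) =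
        fun p => (t p - s * ∑ k, c k * u k p) ^ 2 := by
      funext p
      rw [Finset.mul_sum]
      simp only [mul_assoc]
    rw [e, M_expand hN hU D.bt (hs.const_mul s)] at h4
    have e1 : (fun p => t p * (s * ∑ k, c k * u k p)) =
        fun p => s * (t p * ∑ k, c k * u k p) := by
      funext p
      ring
    have e2 : (fun p => (s * ∑ k, c k * u k p) ^ 2) =
        fun p => (s * s) * (∑ k, c k * u k p) ^ 2 := by
      funext p
      ring
    rw [e1, e2, M_const_mul hN hU (D.bt.mul hs), M_const_mul hN hU hs.sq, h2, h3] at h4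
    have h5 := D.t2 U hU
    linarith
  have h5 := discrim_le_zero key
  rw [discrim] at h5
  nlinarith

/-- an inequality for linear combinations -/
theorem Dg.le (D : Dg N t u g x A) (c : κ → ℝ) {η : ℝ} (hη : 0 < η) :
    ∀ᶠ ε : ℝ in 𝓝[>] 0, (∑ k, c k * x k ε) ^ 2 ≤ A * (∑ k, ∑ l, (c k * c l) * g k l) + η := by
  refine eventually_of_ultra fun U hU => ?_
  have h1 : Tendsto (fun ε => (∑ k, c k * x k ε) ^ 2) U
      (𝓝 ((∑ k, c k * M N U fun p => t p * u k p) ^ 2)) :=
    (tendsto_finsetSum _ fun k _ => (D.lim hU k).const_mul _).pow 2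
  have h2 := D.gram hU c
  exact (h1.eventually_lt_const (lt_of_le_of_lt h2 (by linarith))).mono fun ε hε => hε.le

theorem Dg.besselU (D : Dg N t u g x A) (hA : 0 ≤ A) (hg : ∀ k l, k ≠ l → g k l = 0)
    {U : Ultrafilter ℝ} (hU : (U : Filter ℝ) ≤ 𝓝[>] 0) :
    ∑ k, (M N U fun p => t p * u k p) ^ 2 / g k k ≤ A := by
  classical
  have h1 := D.gram hU fun k => (M N U fun p => t p * u k p) / g k k
  set S := ∑ k, (M N U fun p => t p * u k p) ^ 2 / g k k with hS
  have e1 : ∑ k, (M N U fun p => t p * u k p) / g k k * (M N U fun p => t p * u k p) = S :=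
    Finset.sum_congr rfl fun k _ => by ring
  have e2 : ∑ k, ∑ l, ((M N U fun p => t p * u k p) / g k k *
      ((M N U fun p => t p * u l p) / g l l)) * g k l = S := by
    refine Finset.sum_congr rfl fun k _ => ?_
    rw [Finset.sum_eq_single_of_mem k (Finset.mem_univ k) (fun l _ hlk => by
      rw [hg k l (Ne.symm hlk), mul_zero])]
    by_cases h : g k k = 0
    · rw [h]
      simp
    · field_simp
  rw [e1, e2] at h1
  by_contra hcon
  push Not at hcon
  nlinarith

/-- **Bessel's inequality with a gap.** -/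
theorem Dg.bessel (D : Dg N t u g x A) (hA : 0 ≤ A) (hg : ∀ k l, k ≠ l → g k l = 0) {A' : ℝ}
    (hA' : A < A') : ∀ᶠ ε : ℝ in 𝓝[>] 0, ∑ k, x k ε ^ 2 / g k k ≤ A' := by
  refine eventually_of_ultra fun U hU => ?_
  have h1 : Tendsto (fun ε => ∑ k, x k ε ^ 2 / g k k) U
      (𝓝 (∑ k, (M N U fun p => t p * u k p) ^ 2 / g k k)) :=
    tendsto_finsetSum _ fun k _ => ((D.lim hU k).pow 2).div_const _
  have h2 := D.besselU hA hg hU
  exact (h1.eventually_lt_const (lt_of_le_of_lt h2 hA')).mono fun ε hε => hε.le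

end

end Pool.Agent.TH553.GP
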