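import Pool.Agent.TH553.GP.Law
import Pool.Agent.TH553.GP.Quad
import Pool.Agent.TH553.RS.ArtinFin
import Pool.Agent.W353.NF.Burn

set_option autoImplicit false
set_option linter.unusedSectionVars false

/-!
# Class functions with heights and the law of Sato and Tate
-/

namespace Pool.Agent.TH553.GP

open Complex Filter Topology ComplexConjugate MeasureTheory NumberField IsDedekindDomain
  Pool.Agent.W401.Cheb Pool.Agent.W540.BE Pool.Agent.TH553.RS Pool.Agent.TH553.ST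
  Pool.Agent.H341R2

section

variable {K : Type} [Field K] [NumberField K]

/-- class functions come from the conjugacy classes of the quotient -/
theorem exists_cls {G : Type*} [Group G] (U : Subgroup G) [U.Normal] {Ψ : G → ℂ}
    (h1 : ∀ g, ∀ u ∈ U, Ψ (g * u) = Ψ g) (h2 : ∀ g k, Ψ (k * g * k⁻¹) = Ψ g) :
    ∃ h : ConjClasses (G ⧸ U) → ℂ, ∀ g, h (ConjClasses.mk (QuotientGroup.mk g)) = Ψ g := by
  refine ⟨fun c => Ψ (Quotient.out c).out, fun g => ?_⟩
  have e1 : ConjClasses.mk (Quotient.out (ConjClasses.mk (QuotientGroup.mk g : G ⧸ U))) =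
      ConjClasses.mk (QuotientGroup.mk g : G ⧸ U) := Quotient.out_eq _
  rw [ConjClasses.mk_eq_mk_iff_isConj, isConj_iff] at e1
  obtain ⟨k, hk⟩ := e1
  set q' : G ⧸ U := Quotient.out (ConjClasses.mk (QuotientGroup.mk g : G ⧸ U)) with hq'
  have e2 : (QuotientGroup.mk q'.out : G ⧸ U) = q' := QuotientGroup.out_eq' q'
  have e3 : (QuotientGroup.mk k.out : G ⧸ U) = k := QuotientGroup.out_eq' k
  have e4 : (QuotientGroup.mk (k.out * q'.out * k.out⁻¹) : G ⧸ U) = QuotientGroup.mk g := by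
    rw [QuotientGroup.mk_mul, QuotientGroup.mk_mul, QuotientGroup.mk_inv, e2, e3]
    exact hk
  have e5 := QuotientGroup.eq.1 e4
  have e6 : g = k.out * q'.out * k.out⁻¹ * ((k.out * q'.out * k.out⁻¹)⁻¹ * g) := by group
  calc Ψ q'.out = Ψ (k.out * q'.out * k.out⁻¹) := (h2 _ _).symm
    _ = Ψ (k.out * q'.out * k.out⁻¹ * ((k.out * q'.out * k.out⁻¹)⁻¹ * g)) := (h1 _ _ e5).symm
    _ = Ψ g := by rw [← e6]

/-- the gap -/
noncomputable def gp (r : ℕ) : ℝ := Real.pi ^ 2 / (12 * (r : ℝ) ^ 2)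

theorem gp_gt {r : ℕ} (hr : 0 < r) : 3 / (4 * (r : ℝ) ^ 2) < gp r := by
  have hr' : (0 : ℝ) < r := by exact_mod_cast hr
  unfold gp
  rw [div_lt_div_iff₀ (by positivity) (by positivity)]
  have h3 := Real.pi_gt_three
  have : 9 < Real.pi ^ 2 := by nlinarith
  nlinarith [sq_nonneg (r : ℝ), pow_pos hr' 2]

theorem gp_lt {r : ℕ} (hr : 0 < r) : gp r < 1 := by
  have hr' : (1 : ℝ) ≤ r := by exact_mod_cast hr
  unfold gp
  rw [div_lt_one (by positivity)]
  have h3 := Real.pi_lt_d2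
  have h0 := Real.pi_pos
  have h4 : Real.pi ^ 2 < 12 := by nlinarith
  nlinarith

variable {U : Subgroup (GK K)} [U.Normal] [Finite (GK K ⧸ U)]
  {σ : HeightOneSpectrum (𝓞 K) → GK K} {y : HeightOneSpectrum (𝓞 K) → An}
  {κ : Type} [Fintype κ]

/-- the part of a class function with a height -/
noncomputable def uc (σ : HeightOneSpectrum (𝓞 K) → GK K) (Ψ : GK K → ℂ) (τ : ℝ)
    (v : HeightOneSpectrum (𝓞 K)) : ℝ :=
  (Ψ (σ v) * ((nm K v : ℕ) : ℂ) ^ (-(τ * I))).re

variable (U) in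
/-- **The distance of the trace to the class functions of a finite group.** -/
theorem gap_cls {V : Ultrafilter ℝ} (hV : (V : Filter ℝ) ≤ 𝓝[>] 0) (hL : LH (nm K) V y nu)
    (τ : κ → ℝ) {Ψ : κ → GK K → ℂ} (h1 : ∀ k g, ∀ u ∈ U, Ψ k (g * u) = Ψ k g)
    (h2 : ∀ k g l, Ψ k (l * g * l⁻¹) = Ψ k g) (a : κ → ℝ) :
    gp (Nat.card (ConjClasses (GK K ⧸ U))) ≤
      M (nm K) V fun v => (2 * Real.cos (y v) - ∑ k, a k * uc σ (Ψ k) (τ k) v) ^ 2 := by
  classical
  let _ : Fintype (GK K ⧸ U) := Fintype.ofFinite _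
  have : Finite (ConjClasses (GK K ⧸ U)) := inferInstance
  let _ : Fintype (ConjClasses (GK K ⧸ U)) := Fintype.ofFinite _
  have : Nonempty (ConjClasses (GK K ⧸ U)) := ⟨ConjClasses.mk 1⟩
  choose h hh using fun k => exists_cls U (h1 k) (h2 k)
  have key := gap (sysF K) hV (fun v => nm_pos v) hL τ (C := ConjClasses (GK K ⧸ U))
    (fun v => ConjClasses.mk (QuotientGroup.mk (σ v)))
    (f := fun c z => ((∑ k, a k * (h k c * ((z k : Circle) : ℂ)).re : ℝ) : ℂ)) (fun c => by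
      refine Complex.continuous_ofReal.comp (continuous_finsetSum _ fun k _ => ?_)
      exact continuous_const.mul (Complex.continuous_re.comp (continuous_const.mul
        (continuous_subtype_val.comp (continuous_apply k))))) Tr_cont
    (e := gp (Nat.card (ConjClasses (GK K ⧸ U)))) (fun S => by
      have h3 := dist_semi S
      unfold gp
      rw [Nat.card_eq_fintype_card]
      exact h3)
  refine key.trans (le_of_eq ?_)
  congr 1
  funext v
  have e : ∀ k, a k * (h k (ConjClasses.mk (QuotientGroup.mk (σ v))) *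
      ((zp (nm K) τ v k : Circle) : ℂ)).re = a k * uc σ (Ψ k) (τ k) v := by
    intro k
    rw [hh, zp_eq (fun v => nm_pos v)]
    rfl
  unfold Tr
  rw [Finset.sum_congr rfl fun k _ => e k, ← Complex.ofReal_sub, Complex.norm_real,
    Real.norm_eq_abs, sq_abs]

theorem bd_y (y : HeightOneSpectrum (𝓞 K) → An) : Bd fun v => 2 * Real.cos (y v) :=
  ⟨2, fun v => by
    rw [abs_mul, abs_two]
    have := Real.abs_cos_le_one (y v)
    linarith⟩

/-- the conjugate inverse of the character -/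
noncomputable def chv {n : ℕ} (ρ : Representation ℂ (GK K) (Fin n → ℂ)) (g : GK K) : ℂ :=
  ρ.character g⁻¹

theorem vr_uc {n : ℕ} (ρ : Representation ℂ (GK K) (Fin n → ℂ)) (τ : ℝ) :
    vr σ ρ τ = uc σ (chv ρ) τ := by
  funext v
  unfold vr vc uc chv
  rw [mul_comm]

theorem chv_mul {n : ℕ} {ρ : Representation ℂ (GK K) (Fin n → ℂ)} (hU : ∀ u ∈ U, ρ u = 1)
    (g : GK K) (u : GK K) (hu : u ∈ U) : chv ρ (g * u) = chv ρ g := by
  unfold chv Representation.character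
  have h1 : ρ u⁻¹ = 1 := hU _ (U.inv_mem hu)
  rw [mul_inv_rev, map_mul, h1, one_mul]

theorem chv_conj {n : ℕ} (ρ : Representation ℂ (GK K) (Fin n → ℂ)) (g k : GK K) :
    chv ρ (k * g * k⁻¹) = chv ρ g := by
  unfold chv
  rw [show (k * g * k⁻¹)⁻¹ = k * g⁻¹ * k⁻¹ by group, Representation.char_conj]

/-- **The data for Artin representations.** -/
theorem dg_art (hy : ∀ V : Ultrafilter ℝ, (V : Filter ℝ) ≤ 𝓝[>] 0 → LH (nm K) V y nu)
    (hUo : IsOpen (U : Set (GK K))) (hσ : ∀ v, IsFrob v (σ v)) {n : κ → ℕ}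
    {ρ : ∀ k, Representation ℂ (GK K) (Fin (n k) → ℂ)} (hρ : ∀ k, ∀ u ∈ U, ρ k u = 1)
    (τ : κ → ℝ) {x : κ → ℝ → ℝ}
    (hx : ∀ k, Tendsto (fun ε => qt (nm K) (fun v => 2 * Real.cos (y v) * vr σ (ρ k) (τ k) v) ε -
      x k ε) (𝓝[>] 0) (𝓝 0)) :
    Dg (nm K) (fun v => 2 * Real.cos (y v)) (fun k => vr σ (ρ k) (τ k))
      (fun k l => ga (ρ k) (τ k) (ρ l) (τ l)) x
      (1 - gp (Nat.card (ConjClasses (GK K ⧸ U)))) where
  sys := sysF K
  bt := bd_y y
  t2 := fun V hV => (M_two hV (hy V hV)).le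
  bu := fun k => bd_vr σ ⟨U, hUo, hρ k⟩ (τ k)
  gr := fun k l => gramA ⟨U, hUo, hρ k⟩ (τ k) ⟨U, hUo, hρ l⟩ (τ l) hσ
  cx := hx
  gap := fun V hV c => by
    have h1 := gap_cls U (σ := σ) hV (hy V hV) τ (Ψ := fun k => chv (ρ k))
      (fun k g u hu => chv_mul (hρ k) g u hu) (fun k g l => chv_conj (ρ k) g l) c
    rw [sub_sub_cancel]
    simpa only [← vr_uc] using h1

end

end Pool.Agent.TH553.GP
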