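import Pool.Agent.TH553.GP.Art
import Pool.Agent.W353.NF.EC
import Pool.Agent.W353.NF.Corr
import Pool.Agent.W540.BE.EC

set_option autoImplicit false
set_option linter.unusedSectionVars false

/-!
# Elliptic curves over number fields
-/

namespace Pool.Agent.TH553.GP

open Complex Filter Topology ComplexConjugate MeasureTheory NumberField IsDedekindDomain Asymptotics
  Pool.Agent.W401.Cheb Pool.Agent.W540.BE Pool.Agent.TH553.RS Pool.Agent.TH553.ST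
  Polynomial
open Pool.Agent.H341R2 (lam lam_tendsto)
open Pool.Agent.H341R2.EC (csumv IsMinAt finite_mem)
open Pool.Agent.W353.NF (fixn cz vx SzH size_fix TT size_EF syE_real EP_eq fixn_le abs_cz)
open Pool.Agent.W353.AB (syE tE tEH LE norm_tE tE_ker)
open Pool.Agent.W353.TP (HX sysH LL LL_tendsto E_H)

section

variable {K : Type} [Field K] [NumberField K] {W : WeierstrassCurve (𝓞 K)}

/-- the normalised trace of Frobenius -/
noncomputable def xv (W : WeierstrassCurve (𝓞 K)) (v : HeightOneSpectrum (𝓞 K)) : ℝ :=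
  (trv W v : ℝ) / Real.sqrt (nm K v : ℕ)

/-- the angle -/
noncomputable def yv (W : WeierstrassCurve (𝓞 K)) (v : HeightOneSpectrum (𝓞 K)) : An := ang (xv W v)

/-- the normalised trace, for almost all primes -/
noncomputable def tv (W : WeierstrassCurve (𝓞 K)) (v : HeightOneSpectrum (𝓞 K)) : ℝ :=
  2 * Real.cos (yv W v)

/-- good primes -/
def Gd (W : WeierstrassCurve (𝓞 K)) (v : HeightOneSpectrum (𝓞 K)) : Prop :=
  (6 : 𝓞 K) ∉ v.asIdeal ∧ W.Δ ∉ v.asIdeal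

theorem gd_ev (hΔ : W.Δ ≠ 0) : ∀ᶠ v in cofinite, Gd W v := by
  have h6 : (6 : 𝓞 K) ≠ 0 := by norm_num
  rw [Filter.eventually_cofinite]
  refine ((finite_mem_prime h6).union (finite_mem_prime hΔ)).subset fun v hv => ?_
  rw [Set.mem_ofPred_eq] at hv
  unfold Gd at hv
  rw [not_and_or, not_not, not_not] at hv
  exact hv

theorem pos_v (v : HeightOneSpectrum (𝓞 K)) : (0 : ℝ) < (nm K v : ℕ) := by
  exact_mod_cast nm_pos v

theorem xv_le {v : HeightOneSpectrum (𝓞 K)} (h : Gd W v) : |xv W v| ≤ 2 := by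
  unfold xv
  rw [abs_div, abs_of_pos (Real.sqrt_pos.2 (pos_v v)), div_le_iff₀ (Real.sqrt_pos.2 (pos_v v))]
  exact hasse_v W v h.1 h.2

theorem tv_eq {v : HeightOneSpectrum (𝓞 K)} (h : Gd W v) : tv W v = xv W v := cos_ang (xv_le h)

theorem bd_tv (W : WeierstrassCurve (𝓞 K)) : Bd (tv W) := bd_y _

theorem trv_csum {v : HeightOneSpectrum (𝓞 K)} (h : Gd W v) :
    (trv W v : ℝ) = -(csumv W.c₄ W.c₆ v : ℝ) := by
  classical
  have hmax : v.asIdeal.IsMaximal := v.isMaximal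
  let _ := Ideal.Quotient.field v.asIdeal
  have hfin : Finite (𝓞 K ⧸ v.asIdeal) := Ideal.finiteQuotientOfFreeOfNeBot _ v.ne_bot
  let _ : Fintype (𝓞 K ⧸ v.asIdeal) := Fintype.ofFinite _
  have hcard : Nat.card (𝓞 K ⧸ v.asIdeal) = nm K v := by
    rw [nm, Ideal.absNorm_apply, Submodule.cardQuot_apply]
  have h1 : (6 : 𝓞 K ⧸ v.asIdeal) ≠ 0 := by
    intro h'
    apply h.1
    rw [← Ideal.Quotient.eq_zero_iff_mem, map_ofNat]
    exact h'
  have h2 : affCount (redv W v) = Pool.Agent.H341R2.EC.short (redv W v).c₄ (redv W v).c₆ :=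
    Pool.Agent.H341R2.EC.aff_eq_short h1 (redv W v)
  have h3 := Pool.Agent.H341R2.EC.short_eq h1 (redv W v).c₄ (redv W v).c₆
  have h4 : (Pool.Agent.H341R2.EC.short (redv W v).c₄ (redv W v).c₆ : ℤ) =
      Fintype.card (𝓞 K ⧸ v.asIdeal) +
        Pool.Agent.H341R2.EC.csum (redv W v).c₄ (redv W v).c₆ := h3
  have h5 : (Pool.Agent.H341R2.EC.csum (redv W v).c₄ (redv W v).c₆ : ℤ) = csumv W.c₄ W.c₆ v := by
    unfold csumv redv
    rw [WeierstrassCurve.map_c₄, WeierstrassCurve.map_c₆]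
  have h6 : (trv W v : ℤ) = -(csumv W.c₄ W.c₆ v : ℤ) := by
    rw [trv, h2, h4, h5, ← Nat.card_eq_fintype_card, hcard, nm]
    ring
  exact_mod_cast h6

/-! ### Artin twists -/

/-- the Euler factors of `E ⊗ ρ` -/
def EF (W : WeierstrassCurve (𝓞 K)) {n : ℕ} (ρ : Representation ℂ (GK K) (Fin n → ℂ))
    (B : HeightOneSpectrum (𝓞 K) → ℂ[X]) : Prop :=
  ∀ᶠ v in cofinite, ∀ σ : GK K, IsFrob v σ → ∀ z : ℂ,
    (B v).eval z = LinearMap.det (1 - ((trv W v : ℂ) * z) • ρ σ⁻¹ +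
      (((nm K v : ℕ) : ℂ) * z ^ 2) • (ρ σ⁻¹) ^ 2)

theorem exists_alpha (hΔ : W.Δ ≠ 0) :
    ∃ α : HeightOneSpectrum (𝓞 K) → Fin 2 → ℂ,
      (∀ᶠ v in cofinite, ∀ j, ‖α v j‖ = (nm K v : ℝ) ^ (1 / 2 : ℝ)) ∧
      (∀ᶠ v in cofinite, (∑ j, α v j) * ((nm K v : ℕ) : ℂ) ^ (-((1 / 2 : ℝ) : ℂ)) = tv W v) ∧
      ∀ᶠ v in cofinite, α v 0 + α v 1 = (trv W v : ℂ) ∧ α v 0 * α v 1 = ((nm K v : ℕ) : ℂ) := by
  have hgood := gd_ev hΔ
  have hex : ∀ v : HeightOneSpectrum (𝓞 K), ∃ α : Fin 2 → ℂ,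
      Gd W v →
        (∀ j, ‖α j‖ = (nm K v : ℝ) ^ (1 / 2 : ℝ)) ∧ α 0 + α 1 = ((trv W v : ℝ) : ℂ) ∧
          α 0 * α 1 = ((nm K v : ℝ) : ℂ) := by
    intro v
    by_cases h : Gd W v
    · obtain ⟨α, h2, h3, h4⟩ := exists_roots (pos_v v) (hasse_v W v h.1 h.2)
      exact ⟨α, fun _ => ⟨h2, h3, h4⟩⟩
    · exact ⟨0, fun h' => absurd h' h⟩
  choose α hα using hex
  refine ⟨α, hgood.mono fun v hv => (hα v hv).1, hgood.mono fun v hv => ?_,
    hgood.mono fun v hv => ⟨?_, ?_⟩⟩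
  · rw [Fin.sum_univ_two, (hα v hv).2.1, tv_eq hv]
    have e1 : (((nm K v : ℕ) : ℂ) ^ (-((1 / 2 : ℝ) : ℂ))) =
        (((Real.sqrt (nm K v : ℕ))⁻¹ : ℝ) : ℂ) := by
      rw [Real.sqrt_eq_rpow, ← Real.rpow_neg (pos_v v).le, Complex.ofReal_cpow (pos_v v).le]
      push_cast
      rfl
    rw [e1, ← Complex.ofReal_mul]
    rfl
  · rw [(hα v hv).2.1]
    push_cast
    rfl
  · rw [(hα v hv).2.2]
    push_cast
    rfl

/-- sizes and correlations -/
theorem size_art (hΔ : W.Δ ≠ 0) {n : ℕ}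
    {ρ : Representation ℂ (GK K) (Fin n → ℂ)} (hρ : Open ρ) (τ : ℝ)
    {B : HeightOneSpectrum (𝓞 K) → ℂ[X]} (hB : EF W ρ B)
    (hB0 : ∀ v, (B v).eval (((nm K v : ℕ) : ℂ) ^ (-(3 / 2 + τ * I : ℂ))) ≠ 0)
    (L : ℂ → ℂ)
    (hL : ∀ s : ℂ, L s = ∏' v, ((B v).eval (((nm K v : ℕ) : ℂ) ^ (-s)))⁻¹)
    {σ : HeightOneSpectrum (𝓞 K) → GK K} (hσ : ∀ v, IsFrob v (σ v)) :
    (∀ᶠ ε : ℝ in 𝓝[>] 0, L (3 / 2 + τ * I + ε) ≠ 0) ∧
    Tendsto (fun ε : ℝ => qt (nm K) (fun v => tv W v * vr σ ρ τ v) ε -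
      Real.log ‖L (3 / 2 + τ * I + ε)‖ / Real.log (1 / ε)) (𝓝[>] 0) (𝓝 0) := by
  obtain ⟨α, h1, h2, h3⟩ := exists_alpha hΔ
  have hs : (((1 / 2 : ℝ) : ℂ) + 1 + τ * I) = 3 / 2 + τ * I := by
    push_cast
    ring
  have h4 := size_corr 2 (1 / 2) α h1 (bd_tv W) h2 hρ τ B (by
    filter_upwards [h3, hB] with v h4 h5
    intro σ hσ z
    rw [det_two, h4.1, h4.2]
    exact h5 σ hσ z) (by
    intro v
    rw [hs]
    exact hB0 v) L (fun s _ => hL s) σ hσ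
  rw [hs] at h4
  exact h4

/-! ### Extensions of the base field -/

variable (F : Type) [Field F] [NumberField F] [Algebra K F]

/-- the number of fixed embeddings, with a height -/
noncomputable def ff (σ : HeightOneSpectrum (𝓞 K) → GK K) (τ : ℝ)
    (v : HeightOneSpectrum (𝓞 K)) : ℝ := fixn K F (σ v) * cz τ v

theorem bd_ff (σ : HeightOneSpectrum (𝓞 K) → GK K) (τ : ℝ) : Bd (ff F σ τ) := by
  refine ⟨Module.finrank ℚ F, fun v => ?_⟩
  unfold ff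
  rw [abs_mul, Nat.abs_cast]
  have h1 := fixn_le (K := K) (F := F) (σ v)
  have h2 := abs_cz τ v
  calc (fixn K F (σ v) : ℝ) * |cz τ v| ≤ Module.finrank ℚ F * 1 :=
        mul_le_mul h1 h2 (abs_nonneg _) (by positivity)
    _ = _ := mul_one _

theorem disc_ne (hΔ : W.Δ ≠ 0) : W.c₄ ^ 3 - W.c₆ ^ 2 ≠ 0 := by
  rw [← W.c_relation]
  refine mul_ne_zero ?_ hΔ
  norm_num

theorem tE_gd {v : HeightOneSpectrum (𝓞 K)} (h : Gd W v) (hD : W.c₄ ^ 3 - W.c₆ ^ 2 ∉ v.asIdeal) :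
    (tE W.c₄ W.c₆ v).re = tv W v := by
  have h1 : Pool.Agent.H921R2.TatePole.nm v = nm K v := rfl
  rw [tv_eq h]
  unfold tE xv
  rw [if_pos ⟨h.1, hD⟩, trv_csum h, h1]
  have e : -(csumv W.c₄ W.c₆ v : ℂ) * ((Real.sqrt (nm K v : ℕ) : ℝ) : ℂ)⁻¹ =
      ((-(csumv W.c₄ W.c₆ v : ℝ) / Real.sqrt (nm K v : ℕ) : ℝ) : ℂ) := by
    push_cast
    rw [div_eq_mul_inv]
  rw [e, Complex.ofReal_re]

/-- **Sizes over `F` and correlations.** -/
theorem size_fld (hΔ : W.Δ ≠ 0) (M' : HeightOneSpectrum (𝓞 F) → WeierstrassCurve (𝓞 F))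
    (hM : ∀ v, IsMinAt ((W.map (algebraMap (𝓞 K) K)).map (algebraMap K F)) v (M' v)) (τ : ℝ)
    {σ : HeightOneSpectrum (𝓞 K) → GK K} (hσ : ∀ v, IsFrob v (σ v)) :
    (∀ᶠ ε : ℝ in 𝓝[>] 0, LE M' (3 / 2 + τ * I + ε) ≠ 0) ∧
    ∀ V : Ultrafilter ℝ, (V : Filter ℝ) ≤ 𝓝[>] 0 →
      Tendsto (fun ε : ℝ => Real.log ‖LE M' (3 / 2 + τ * I + ε)‖ / Real.log (1 / ε)) V
        (𝓝 (M (nm K) V fun v => tv W v * ff F σ τ v)) := by
  obtain ⟨h1, h2⟩ := size_EF (W.map (algebraMap (𝓞 K) K)) (l := 1) (P := W.c₄) (Q := W.c₆)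
    one_ne_zero (by simp) (by simp) (disc_ne hΔ) M' hM τ
  refine ⟨h1, fun V hV => ?_⟩
  set X : ℝ → ℝ := fun ε => Real.log ‖LE M' (3 / 2 + τ * I + ε)‖ / Real.log (1 / ε) with hX
  have h3 := size_fix (F := F) (syE W.c₄ W.c₆) (syE_real _ _) σ hσ h2
  set g : HeightOneSpectrum (𝓞 K) → ℝ := fun v => (tE W.c₄ W.c₆ v).re * ff F σ τ v with hg
  have hTT : ∀ x : HX K, TT (syE W.c₄ W.c₆) x * (fixn K F (σ (vx x)) * cz τ (vx x)) = g (vx x) := by
    intro x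
    rcases x with ⟨p, ψ⟩
    have e1 : TT (syE W.c₄ W.c₆) (⟨p, ψ⟩ : HX K) = (tEH W.c₄ W.c₆ ⟨p, ψ⟩).re := by
      have e2 : TT (syE W.c₄ W.c₆) (⟨p, ψ⟩ : HX K) =
          ∑ _j ∈ ({()} : Finset Unit), (tEH W.c₄ W.c₆ ⟨p, ψ⟩).re := rfl
      rw [e2, Finset.sum_singleton]
    have e2 := tE_ker (RingHom.id (𝓞 K)) W.c₄ W.c₆ p ψ
    rw [RingHom.comp_id] at e2
    rw [e1, ← e2]
    rfl
  have hgb : ∃ C : ℝ, ∀ v, |g v| ≤ C := by
    obtain ⟨C, hC⟩ := bd_ff (K := K) F σ τ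
    refine ⟨2 * C, fun v => ?_⟩
    rw [hg]
    simp only
    rw [abs_mul]
    exact mul_le_mul ((Complex.abs_re_le_norm _).trans (norm_tE _ _ v)) (hC v) (abs_nonneg _)
      (by norm_num)
  obtain ⟨C, hC⟩ := hgb
  -- comparison of the sums
  unfold SzH at h3
  have h4 : Tendsto (fun ε => X ε - ((sysH K).E ε fun x : HX K => g (vx x)) / LL ε) (𝓝[>] 0)
      (𝓝 0) := by
    have h5 := (isLittleO_iff_tendsto' (by
      filter_upwards [LL_tendsto.eventually_gt_atTop 0] with ε h h'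
      exact absurd h' h.ne')).1 h3
    refine h5.congr' ?_
    filter_upwards [LL_tendsto.eventually_gt_atTop 0] with ε h
    have e3 : (sysH K).E ε (fun x : HX K => TT (syE W.c₄ W.c₆) x *
        (fixn K F (σ (vx x)) * cz τ (vx x))) = (sysH K).E ε (fun x : HX K => g (vx x)) :=
      congrArg ((sysH K).E ε) (funext hTT)
    rw [sub_div, mul_div_assoc, div_self h.ne', mul_one]
    congr 2
  have h6 : Tendsto (fun ε => (((sysH K).E ε fun x : HX K => g (vx x)) - EP (nm K) ε g) / LL ε)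
      (𝓝[>] 0) (𝓝 0) := by
    have h7 : Tendsto (fun ε : ℝ => (C * Module.finrank ℚ K *
        Pool.Agent.H921R2.TatePole.C0) / LL ε) (𝓝[>] 0) (𝓝 0) :=
      tendsto_const_nhds.div_atTop LL_tendsto
    refine squeeze_zero_norm' ?_ h7
    filter_upwards [LL_tendsto.eventually_gt_atTop 0, self_mem_nhdsWithin] with ε h h'
    have h8 := E_H (K := K) hC (show (0 : ℝ) < ε from h')
    rw [norm_div, Real.norm_eq_abs, Real.norm_eq_abs, abs_of_pos h, abs_sub_comm]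
    exact div_le_div_of_nonneg_right h8 h.le
  have h9 : Tendsto (fun ε => X ε - EP (nm K) ε g / LL ε) (𝓝[>] 0) (𝓝 0) := by
    have h10 := h4.add h6
    rw [add_zero] at h10
    refine h10.congr fun ε => ?_
    rw [sub_div]
    ring
  have hlam : Tendsto (fun ε => lam ε / LL ε) (𝓝[>] 0) (𝓝 1) := by
    have h10 := Pool.Agent.W353.TP.lam0_sub
    have h11 := (isLittleO_iff_tendsto' (by
      filter_upwards [LL_tendsto.eventually_gt_atTop 0] with ε h h'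
      exact absurd h' h.ne')).1 h10
    have h12 := h11.add_const 1
    rw [zero_add] at h12
    refine h12.congr' ?_
    filter_upwards [LL_tendsto.eventually_gt_atTop 0] with ε h
    rw [sub_div, div_self h.ne']
    ring
  have hgB : Bd g := ⟨C, hC⟩
  have h10 : Tendsto (fun ε => EP (nm K) ε g / LL ε) V (𝓝 (M (nm K) V g)) := by
    have h11 := (M_lim (sysF K) hV hgB).mul (hlam.mono_left hV)
    rw [mul_one] at h11
    refine h11.congr' ?_
    filter_upwards [pos_of_le hV] with ε h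
    unfold qt
    rw [div_mul_div_cancel₀ h.2.ne']
  have h11 : Tendsto X V (𝓝 (M (nm K) V g)) := by
    have h12 := (h9.mono_left hV).add h10
    rw [zero_add] at h12
    exact h12.congr fun ε => by ring
  have h12 : M (nm K) V g = M (nm K) V fun v => tv W v * ff F σ τ v := by
    refine M_congr_fin (sysF K) hV hgB ((bd_tv W).mul (bd_ff F σ τ)) ?_
    have h13 := (gd_ev hΔ)
    rw [Filter.eventually_cofinite] at h13
    refine (h13.union (finite_mem_prime (disc_ne hΔ))).subset fun v hv => ?_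
    by_contra hcon
    rw [Set.mem_union, not_or, Set.mem_ofPred_eq, not_not, Set.mem_ofPred_eq] at hcon
    apply hv
    rw [hg]
    simp only
    rw [tE_gd hcon.1 hcon.2]
  rw [← h12]
  exact h11

end

end Pool.Agent.TH553.GP
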