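import Pool.Agent.TH553.ST.Alg

set_option autoImplicit false
set_option linter.unusedSectionVars false

/-!
# The distance to functions with few values
-/

namespace Pool.Agent.TH553.GP

open Complex Filter Topology ComplexConjugate MeasureTheory Pool.Agent.W540.BE
  Pool.Agent.TH553.RS Pool.Agent.TH553.ST Pool.Agent.H341R2

section

variable {P : Type*} {N : P → ℕ} {Y : Type} [TopologicalSpace Y] [CompactSpace Y] [T2Space Y]
  [MeasurableSpace Y] [BorelSpace Y] {μ : Measure Y} [IsProbabilityMeasure μ]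
  {U : Ultrafilter ℝ} {y : P → Y} {κ : Type} [Fintype κ]

/-- the law of `y p`, also jointly with the norms -/
def LH (N : P → ℕ) (U : Ultrafilter ℝ) (y : P → Y) (μ : Measure Y) : Prop :=
  ∀ g : Y → ℂ, Continuous g → ∀ σ : ℝ,
    (M N U fun p => ((g (y p) - ∫ t, g t ∂μ) * ((N p : ℕ) : ℂ) ^ (-(σ * I : ℂ))).re) = 0

/-- the point on the torus -/
noncomputable def zp (N : P → ℕ) (τ : κ → ℝ) (p : P) (k : κ) : Circle :=
  Circle.exp (-(τ k * Real.log (N p)))

theorem zp_eq (hpos : ∀ p, 0 < N p) (τ : κ → ℝ) (p : P) (k : κ) :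
    ((zp N τ p k : Circle) : ℂ) = ((N p : ℕ) : ℂ) ^ (-(τ k * I : ℂ)) := by
  rw [cpow_exp (hpos p)]
  unfold zp
  rw [Circle.coe_exp]
  congr 1
  push_cast
  ring

/-- the monomials -/
noncomputable def mon (a : κ → ℤ) (z : κ → Circle) : ℂ := ∏ k, ((z k : Circle) : ℂ) ^ (a k)

theorem mon_cont (a : κ → ℤ) : Continuous (mon a) := by
  unfold mon
  refine continuous_finsetProd _ fun k _ => ?_
  exact (continuous_subtype_val.comp (continuous_apply k)).zpow₀ _ fun z => Or.inl (Circle.coe_ne_zero _)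

theorem mon_add (a b : κ → ℤ) (z : κ → Circle) : mon (a + b) z = mon a z * mon b z := by
  unfold mon
  rw [← Finset.prod_mul_distrib]
  exact Finset.prod_congr rfl fun k _ => zpow_add₀ (Circle.coe_ne_zero _) _ _

theorem mon_conj (a : κ → ℤ) (z : κ → Circle) : conj (mon a z) = mon (-a) z := by
  unfold mon
  rw [map_prod]
  refine Finset.prod_congr rfl fun k _ => ?_
  rw [map_zpow₀, Pi.neg_apply, zpow_neg, ← inv_zpow, ← Circle.coe_inv_eq_conj, Circle.coe_inv]

theorem norm_mon (a : κ → ℤ) (z : κ → Circle) : ‖mon a z‖ = 1 := by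
  unfold mon
  rw [norm_prod]
  exact Finset.prod_eq_one fun k _ => by rw [norm_zpow, Circle.norm_coe, one_zpow]

theorem mon_zp (hpos : ∀ p, 0 < N p) (τ : κ → ℝ) (a : κ → ℤ) (p : P) :
    mon a (zp N τ p) = ((N p : ℕ) : ℂ) ^ (-(((∑ k, a k * τ k : ℝ) : ℂ) * I)) := by
  have hq : ((N p : ℕ) : ℂ) ≠ 0 := by exact_mod_cast (hpos p).ne'
  unfold mon
  have e : ∀ k, ((zp N τ p k : Circle) : ℂ) ^ (a k) =
      Complex.exp ((a k : ℂ) * (-(τ k * (Real.log (N p) : ℝ) * I))) := by
    intro k
    rw [zp_eq hpos, cpow_exp (hpos p), ← Complex.exp_int_mul]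
  rw [Finset.prod_congr rfl fun k _ => e k, ← Complex.exp_sum, cpow_exp (hpos p)]
  congr 1
  push_cast
  rw [Finset.sum_mul, Finset.sum_mul, ← Finset.sum_neg_distrib]
  exact Finset.sum_congr rfl fun k _ => by ring

/-- trigonometric polynomials on the torus with continuous functions as coefficients -/
def TA (A : Y × (κ → Circle) → ℂ) : Prop := ∃ (J : Type) (_ : Fintype J) (g : J → Y → ℂ)
  (a : J → κ → ℤ), (∀ j, Continuous (g j)) ∧ ∀ q, A q = ∑ j, g j q.1 * mon (a j) q.2

/-- the algebra of trigonometric polynomials -/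
def talg (Y κ : Type) [TopologicalSpace Y] [CompactSpace Y] [Fintype κ] :
    StarSubalgebra ℂ C(Y × (κ → Circle), ℂ) where
  carrier := {A | TA A}
  mul_mem' := by
    rintro A B ⟨J, _, g, a, h1, h2⟩ ⟨J', _, g', a', h1', h2'⟩
    refine ⟨J × J', inferInstance, fun j t => g j.1 t * g' j.2 t, fun j => a j.1 + a' j.2,
      fun j => (h1 j.1).mul (h1' j.2), fun q => ?_⟩
    rw [ContinuousMap.mul_apply, h2, h2', Fintype.sum_prod_type, Finset.sum_mul_sum]
    refine Finset.sum_congr rfl fun i _ => Finset.sum_congr rfl fun j _ => ?_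
    rw [mon_add]
    ring
  add_mem' := by
    rintro A B ⟨J, _, g, a, h1, h2⟩ ⟨J', _, g', a', h1', h2'⟩
    refine ⟨J ⊕ J', inferInstance, Sum.elim g g', Sum.elim a a', ?_, fun q => ?_⟩
    · rintro (j | j)
      · exact h1 j
      · exact h1' j
    · rw [ContinuousMap.add_apply, h2, h2', Fintype.sum_sum_type]
      rfl
  algebraMap_mem' := by
    intro r
    refine ⟨Unit, inferInstance, fun _ _ => r, fun _ => 0, fun _ => continuous_const, fun q => ?_⟩
    simp [mon]
  star_mem' := by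
    rintro A ⟨J, _, g, a, h1, h2⟩
    refine ⟨J, inferInstance, fun j t => conj (g j t), fun j => -a j,
      fun j => Complex.continuous_conj.comp (h1 j), fun q => ?_⟩
    rw [ContinuousMap.star_apply, h2, RCLike.star_def, map_sum]
    refine Finset.sum_congr rfl fun j _ => ?_
    rw [map_mul, mon_conj]

theorem talg_sep : (talg Y κ).SeparatesPoints := by
  rintro ⟨t, z⟩ ⟨t', z'⟩ hne
  by_cases ht : t = t'
  · have hz : z ≠ z' := fun h => hne (by rw [ht, h])
    obtain ⟨k, hk⟩ := Function.ne_iff.1 hz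
    classical
    refine ⟨fun q => mon (Pi.single k 1) q.2, ⟨⟨fun q => mon (Pi.single k 1) q.2,
      (mon_cont _).comp continuous_snd⟩, ?_, rfl⟩, ?_⟩
    · refine ⟨Unit, inferInstance, fun _ _ => 1, fun _ => Pi.single k 1,
        fun _ => continuous_const, fun q => ?_⟩
      simp
    · intro h
      apply hk
      have e : ∀ z : κ → Circle, mon (Pi.single k 1) z = z k := by
        intro z
        unfold mon
        rw [Finset.prod_eq_single k (fun j _ hj => by rw [Pi.single_eq_of_ne hj, zpow_zero])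
          (fun h => absurd (Finset.mem_univ k) h), Pi.single_eq_same, zpow_one]
      simp only [e] at h
      exact Circle.ext h
  · obtain ⟨f, hf1, hf2, -⟩ := exists_continuous_zero_one_of_isClosed (isClosed_singleton (x := t))
      (isClosed_singleton (x := t')) (by simpa using ht)
    refine ⟨fun q => ((f q.1 : ℝ) : ℂ), ⟨⟨fun q => ((f q.1 : ℝ) : ℂ),
      Complex.continuous_ofReal.comp (f.continuous.comp continuous_fst)⟩, ?_, rfl⟩, ?_⟩
    · refine ⟨Unit, inferInstance, fun _ t => ((f t : ℝ) : ℂ), fun _ => 0,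
        fun _ => Complex.continuous_ofReal.comp f.continuous, fun q => ?_⟩
      simp [mon]
    · have e1 : f t = 0 := hf1 rfl
      have e2 : f t' = 1 := hf2 rfl
      simp [e1, e2]

theorem intY {E : Type*} [NormedAddCommGroup E] [SecondCountableTopology E] {f : Y → E}
    (hf : Continuous f) : Integrable f μ := by
  refine ⟨hf.aestronglyMeasurable, ?_⟩
  obtain ⟨C, hC⟩ := (isCompact_univ (X := Y)).exists_bound_of_continuousOn hf.continuousOn
  exact HasFiniteIntegral.of_bounded (C := C) (Filter.Eventually.of_forall fun x => hC x (Set.mem_univ x))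

theorem bd_joint (τ : κ → ℝ) {D : Y × (κ → Circle) → ℝ} (hD : Continuous D) :
    Bd fun p => D (y p, zp N τ p) := by
  obtain ⟨C, hC⟩ := (isCompact_univ (X := Y × (κ → Circle))).exists_bound_of_continuousOn
    hD.continuousOn
  exact ⟨C, fun p => hC _ (Set.mem_univ _)⟩

/-- **Joint law of `y p` and of the norms.** -/
theorem joint_le (hN : Sys N) (hU : (U : Filter ℝ) ≤ 𝓝[>] 0) (hpos : ∀ p, 0 < N p)
    (hL : LH N U y μ) (τ : κ → ℝ) {D : Y × (κ → Circle) → ℝ} (hD : Continuous D) {e : ℝ}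
    (he : ∀ z, e ≤ ∫ t, D (t, z) ∂μ) : e ≤ M N U fun p => D (y p, zp N τ p) := by
  have hDb : Bd fun p => D (y p, zp N τ p) := bd_joint τ hD
  refine le_of_forall_pos_le_add fun δ hδ => ?_
  -- approximation
  have h1 : (talg Y κ).topologicalClosure = ⊤ :=
    ContinuousMap.starSubalgebra_topologicalClosure_eq_top_of_separatesPoints _ talg_sep
  set D' : C(Y × (κ → Circle), ℂ) := ⟨fun q => ((D q : ℝ) : ℂ), Complex.continuous_ofReal.comp hD⟩
    with hD'
  have h2 : D' ∈ (talg Y κ).topologicalClosure := by rw [h1]; trivial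
  have h3 : D' ∈ closure ((talg Y κ : StarSubalgebra ℂ _) : Set C(Y × (κ → Circle), ℂ)) := h2
  obtain ⟨A, hA1, hA2⟩ := Metric.mem_closure_iff.1 h3 (δ / 2) (by linarith)
  obtain ⟨J, _, g, a, h4, h5⟩ := hA1
  have h6 : ∀ q, ‖((D q : ℝ) : ℂ) - A q‖ ≤ δ / 2 := by
    intro q
    have := (ContinuousMap.dist_apply_le_dist (f := D') (g := A) q).trans hA2.le
    rwa [dist_eq_norm] at this
  have h7 : ∀ q, D q - δ / 2 ≤ (A q).re ∧ (A q).re ≤ D q + δ / 2 := by
    intro q
    have h8 := (Complex.abs_re_le_norm _).trans (h6 q)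
    rw [Complex.sub_re, Complex.ofReal_re, abs_le] at h8
    constructor <;> linarith [h8.1, h8.2]
  -- boundedness
  have hgb : ∀ j, ∃ C : ℝ, ∀ t, ‖g j t‖ ≤ C := fun j => by
    obtain ⟨C, hC⟩ := (isCompact_univ (X := Y)).exists_bound_of_continuousOn (h4 j).continuousOn
    exact ⟨C, fun t => hC _ (Set.mem_univ _)⟩
  choose C hC using hgb
  have hb1 : ∀ j, Bd fun p => (g j (y p) * mon (a j) (zp N τ p)).re := fun j => by
    refine ⟨C j, fun p => (Complex.abs_re_le_norm _).trans ?_⟩
    rw [norm_mul, norm_mon, mul_one]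
    exact hC j _
  have hb2 : ∀ j, Bd fun p => ((∫ t, g j t ∂μ) * mon (a j) (zp N τ p)).re := fun j => by
    refine ⟨‖∫ t, g j t ∂μ‖, fun p => (Complex.abs_re_le_norm _).trans ?_⟩
    rw [norm_mul, norm_mon, mul_one]
  have h8 : ∀ j, (M N U fun p => (g j (y p) * mon (a j) (zp N τ p)).re) =
      M N U fun p => ((∫ t, g j t ∂μ) * mon (a j) (zp N τ p)).re := by
    intro j
    have h9 := hL (g j) (h4 j) (∑ k, a j k * τ k)
    have e1 : (fun p => ((g j (y p) - ∫ t, g j t ∂μ) * ((N p : ℕ) : ℂ) ^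
        (-(((∑ k, a j k * τ k : ℝ) : ℂ) * I))).re) =
        fun p => (g j (y p) * mon (a j) (zp N τ p)).re -
          ((∫ t, g j t ∂μ) * mon (a j) (zp N τ p)).re := by
      funext p
      rw [mon_zp hpos, sub_mul, Complex.sub_re]
    rw [e1, M_sub hN hU (hb1 j) (hb2 j)] at h9
    linarith
  have e2 : (fun p => (A (y p, zp N τ p)).re) =
      fun p => ∑ j, (g j (y p) * mon (a j) (zp N τ p)).re := by
    funext p
    rw [h5, Complex.re_sum]
  have hbA : Bd fun p => (A (y p, zp N τ p)).re := by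
    rw [e2]
    exact Bd.sum _ fun j _ => hb1 j
  have h9 : (M N U fun p => (A (y p, zp N τ p)).re) =
      M N U fun p => ∑ j, ((∫ t, g j t ∂μ) * mon (a j) (zp N τ p)).re := by
    rw [e2, M_sum hN hU _ fun j _ => hb1 j, M_sum hN hU _ fun j _ => hb2 j]
    exact Finset.sum_congr rfl fun j _ => h8 j
  have h10 : ∀ p, e - δ / 2 ≤ ∑ j, ((∫ t, g j t ∂μ) * mon (a j) (zp N τ p)).re := by
    intro p
    have hcA : Continuous fun t => A (t, zp N τ p) :=
      A.continuous.comp (continuous_id.prodMk continuous_const)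
    have e3 : ∑ j, ((∫ t, g j t ∂μ) * mon (a j) (zp N τ p)).re =
        ∫ t, (A (t, zp N τ p)).re ∂μ := by
      rw [← Complex.re_sum]
      have e4 : ∑ j, (∫ t, g j t ∂μ) * mon (a j) (zp N τ p) = ∫ t, A (t, zp N τ p) ∂μ := by
        have e5 : (fun t => A (t, zp N τ p)) = fun t => ∑ j, g j t * mon (a j) (zp N τ p) :=
          funext fun t => h5 _
        rw [e5, integral_finsetSum _ fun j _ =>
          intY (f := fun t => g j t * mon (a j) (zp N τ p)) ((h4 j).mul continuous_const)]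
        exact Finset.sum_congr rfl fun j _ => (integral_mul_const _ _).symm
      rw [e4]
      exact (integral_re (intY hcA)).symm
    rw [e3]
    have hcD : Continuous fun t => D (t, zp N τ p) := hD.comp (continuous_id.prodMk continuous_const)
    have h11 : ∫ t, (D (t, zp N τ p) - δ / 2) ∂μ ≤ ∫ t, (A (t, zp N τ p)).re ∂μ :=
      integral_mono (intY (hcD.sub continuous_const)) (intY (Complex.continuous_re.comp hcA))
        fun t => (h7 _).1
    rw [integral_sub (intY hcD) (integrable_const _)] at h11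
    have h12 : ∫ _ : Y, δ / 2 ∂μ = δ / 2 := by simp
    rw [h12] at h11
    linarith [he (zp N τ p)]
  have h11 := M_mono hN hU (Bd.const (e - δ / 2)) (Bd.sum Finset.univ fun j _ => hb2 j) h10
  rw [M_const hN hU, ← h9] at h11
  have h12 := M_mono hN hU hbA (hDb.add (Bd.const (δ / 2))) fun p => (h7 _).2
  rw [M_add hN hU hDb (Bd.const _), M_const hN hU] at h12
  linarith

/-- the distance to the nearest value -/
noncomputable def dm {C : Type} [Fintype C] [Nonempty C] (T : Y → ℂ) (S : C → ℂ) (t : Y) : ℝ :=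
  Finset.univ.inf' Finset.univ_nonempty fun c => ‖T t - S c‖ ^ 2

/-- **The distance to functions with few values.** -/
theorem gap (hN : Sys N) (hU : (U : Filter ℝ) ≤ 𝓝[>] 0) (hpos : ∀ p, 0 < N p)
    (hL : LH N U y μ) (τ : κ → ℝ) {C : Type} [Fintype C] [Nonempty C] (c : P → C)
    {f : C → (κ → Circle) → ℂ} (hf : ∀ c, Continuous (f c)) {T : Y → ℂ} (hT : Continuous T)
    {e : ℝ} (he : ∀ S : C → ℂ, e ≤ ∫ t, dm T S t ∂μ) :
    e ≤ M N U fun p => ‖T (y p) - f (c p) (zp N τ p)‖ ^ 2 := by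
  have hc : ∀ c, Continuous fun q : Y × (κ → Circle) => ‖T q.1 - f c q.2‖ ^ 2 := fun c =>
    (((hT.comp continuous_fst).sub ((hf c).comp continuous_snd)).norm.pow 2)
  have hD : Continuous fun q : Y × (κ → Circle) => dm T (fun c => f c q.2) q.1 := by
    unfold dm
    exact Continuous.finset_inf'_apply _ fun c _ => hc c
  have h1 := joint_le hN hU hpos hL τ hD (e := e) (fun z => he fun c => f c z)
  refine h1.trans ?_
  have hb1 : Bd fun p => ‖T (y p) - f (c p) (zp N τ p)‖ ^ 2 := by
    have h2 : ∀ c', ∃ B : ℝ, ∀ p, |‖T (y p) - f c' (zp N τ p)‖ ^ 2| ≤ B := fun c' =>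
      bd_joint (y := y) (N := N) τ (hc c')
    choose B hB using h2
    refine ⟨∑ c', |B c'|, fun p => (hB (c p) p).trans ((le_abs_self _).trans ?_)⟩
    exact Finset.single_le_sum (f := fun c' => |B c'|) (fun _ _ => abs_nonneg _)
      (Finset.mem_univ (c p))
  refine M_mono hN hU (bd_joint τ hD) hb1 fun p => ?_
  exact Finset.inf'_le (f := fun c => ‖T (y p) - f c (zp N τ p)‖ ^ 2) (Finset.mem_univ (c p))

end

end Pool.Agent.TH553.GP
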