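import Pool.Agent.TH553.GP.Semi
import Pool.Agent.TH553.ST.Law

set_option autoImplicit false
set_option linter.unusedSectionVars false

/-!
# From the natural density to the joint law
-/

namespace Pool.Agent.TH553.GP

open Complex Filter Topology ComplexConjugate MeasureTheory NumberField IsDedekindDomain
  Pool.Agent.W401.Cheb Pool.Agent.W540.BE Pool.Agent.TH553.RS Pool.Agent.TH553.ST
  Pool.Agent.H341R2

section

variable {K : Type} [Field K] [NumberField K]

/-- averages of real and imaginary parts -/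
theorem mn_complex {g : HeightOneSpectrum (𝓞 K) → ℂ} {c : ℂ}
    (h1 : Tendsto (mn fun v => (g v).re) atTop (𝓝 c.re))
    (h2 : Tendsto (mn fun v => (g v).im) atTop (𝓝 c.im)) : Tendsto (mn g) atTop (𝓝 c) := by
  have h3 : Tendsto (fun N => ((mn (fun v => (g v).re) N : ℝ) : ℂ) +
      ((mn (fun v => (g v).im) N : ℝ) : ℂ) * I) atTop (𝓝 ((c.re : ℂ) + (c.im : ℂ) * I)) :=
    ((Complex.continuous_ofReal.tendsto _).comp h1).add
      (((Complex.continuous_ofReal.tendsto _).comp h2).mul_const I)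
  rw [Complex.re_add_im] at h3
  refine h3.congr fun N => ?_
  rw [← re_mn, ← im_mn, Complex.re_add_im]

/-- averages of constants -/
theorem mn_const (c : ℂ) : Tendsto (mn fun _ : HeightOneSpectrum (𝓞 K) => c) atTop (𝓝 c) := by
  have h8 : Tendsto (fun N : ℕ => c) atTop (𝓝 c) := tendsto_const_nhds
  refine h8.congr' ?_
  filter_upwards [card_ev (K := K)] with N hN
  unfold mn
  rw [Finset.sum_const, Complex.real_smul, nsmul_eq_mul]
  push_cast
  have hN' : ((upto K N).card : ℂ) ≠ 0 := by exact_mod_cast hN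
  field_simp

theorem mn_sub (g g' : HeightOneSpectrum (𝓞 K) → ℂ) (N : ℕ) :
    mn (fun v => g v - g' v) N = mn g N - mn g' N := by
  unfold mn
  rw [Finset.sum_sub_distrib, smul_sub]

/-- **The joint law from the law of a compact-valued family.** -/
theorem LH_of_mn {Y : Type} [TopologicalSpace Y] [CompactSpace Y] [T2Space Y]
    [MeasurableSpace Y] [BorelSpace Y] {μ : Measure Y} [IsProbabilityMeasure μ]
    {y : HeightOneSpectrum (𝓞 K) → Y}
    (h : ∀ g : Y → ℝ, Continuous g → Tendsto (mn fun v => g (y v)) atTop (𝓝 (∫ t, g t ∂μ)))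
    {V : Ultrafilter ℝ} (hV : (V : Filter ℝ) ≤ 𝓝[>] 0) : LH (nm K) V y μ := by
  intro g hg σ
  have h1 : Tendsto (mn fun v => g (y v)) atTop (𝓝 (∫ t, g t ∂μ)) := by
    refine mn_complex ?_ ?_
    · have h2 := h (fun t => (g t).re) (Complex.continuous_re.comp hg)
      rw [show (∫ t, g t ∂μ).re = ∫ t, (g t).re ∂μ from (integral_re (intY hg)).symm]
      exact h2
    · have h2 := h (fun t => (g t).im) (Complex.continuous_im.comp hg)
      rw [show (∫ t, g t ∂μ).im = ∫ t, (g t).im ∂μ from (integral_im (intY hg)).symm]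
      exact h2
  have h2 : Tendsto (mn fun v => g (y v) - ∫ t, g t ∂μ) atTop (𝓝 0) := by
    have h3 := h1.sub (mn_const (K := K) (∫ t, g t ∂μ))
    rw [sub_self] at h3
    exact h3.congr fun N => (mn_sub _ _ _).symm
  obtain ⟨C, hC⟩ := (isCompact_univ (X := Y)).exists_bound_of_continuousOn hg.continuousOn
  exact M_height hV ⟨C + ‖∫ t, g t ∂μ‖, fun v => (norm_sub_le _ _).trans
    (add_le_add (hC _ (Set.mem_univ _)) le_rfl)⟩ h2 σ

/-- the angle -/
noncomputable def ang (x : ℝ) : An :=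
  ⟨Real.arccos (x / 2), Real.arccos_nonneg _, Real.arccos_le_pi _⟩

theorem ang_cont : Continuous ang := by
  unfold ang
  exact Continuous.subtype_mk (Real.continuous_arccos.comp (by fun_prop)) _

/-- the trace of the angle -/
theorem cos_ang {x : ℝ} (h : |x| ≤ 2) : 2 * Real.cos (ang x) = x := by
  change 2 * Real.cos (Real.arccos (x / 2)) = x
  rw [abs_le] at h
  rw [Real.cos_arccos (by linarith) (by linarith)]
  ring

theorem ang_cos (t : An) : ang (2 * Real.cos t) = t := by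
  refine Subtype.ext ?_
  change Real.arccos (2 * Real.cos t / 2) = t
  rw [mul_div_cancel_left₀ _ (two_ne_zero)]
  exact Real.arccos_cos t.2.1 t.2.2

/-- the law of Sato and Tate -/
def STL (x : HeightOneSpectrum (𝓞 K) → ℝ) : Prop :=
  ∀ g : ℝ → ℝ, Continuous g → Tendsto (mn fun v => g (x v)) atTop
    (𝓝 (2 / Real.pi * ∫ θ in (0 : ℝ)..Real.pi, g (2 * Real.cos θ) * Real.sin θ ^ 2))

theorem int_nu_cos (g : ℝ → ℝ) : ∫ t : An, g (2 * Real.cos t) ∂nu =
    2 / Real.pi * ∫ θ in (0 : ℝ)..Real.pi, g (2 * Real.cos θ) * Real.sin θ ^ 2 := by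
  rw [int_nu (fun θ => g (2 * Real.cos θ)), ← intervalIntegral.integral_const_mul]
  refine intervalIntegral.integral_congr fun θ _ => ?_
  simp only [smul_eq_mul]
  unfold dens
  ring

theorem STL.ang {x : HeightOneSpectrum (𝓞 K) → ℝ} (h : STL x) {V : Ultrafilter ℝ}
    (hV : (V : Filter ℝ) ≤ 𝓝[>] 0) : LH (nm K) V (fun v => ang (x v)) nu := by
  refine LH_of_mn (fun g hg => ?_) hV
  have h1 := h (fun s => g (GP.ang s)) (hg.comp ang_cont)
  rw [← int_nu_cos (fun s => g (GP.ang s))] at h1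
  simpa only [ang_cos] using h1

theorem M_nu {y : HeightOneSpectrum (𝓞 K) → An} {V : Ultrafilter ℝ}
    (hV : (V : Filter ℝ) ≤ 𝓝[>] 0) (hL : LH (nm K) V y nu) {g : An → ℝ} (hg : Continuous g) (τ : ℝ) :
    (M (nm K) V fun v => g (y v) * (((nm K v : ℕ) : ℂ) ^ (-(τ * I))).re) =
      if τ = 0 then ∫ t, g t ∂nu else 0 := by
  have hN := sysF K
  have h1 := hL (fun t => ((g t : ℝ) : ℂ)) (Complex.continuous_ofReal.comp hg) τ
  have hz : ∀ v, |(((nm K v : ℕ) : ℂ) ^ (-(τ * I))).re| ≤ 1 := fun v =>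
    (Complex.abs_re_le_norm _).trans (by rw [norm_cpow_I (nm_pos v)])
  obtain ⟨C, hC⟩ := (isCompact_univ (X := An)).exists_bound_of_continuousOn hg.continuousOn
  have hb1 : Bd fun v => g (y v) * (((nm K v : ℕ) : ℂ) ^ (-(τ * I))).re :=
    (show Bd fun v => g (y v) from ⟨C, fun v => hC _ (Set.mem_univ _)⟩).mul ⟨1, hz⟩
  have hb2 : Bd fun v => (((nm K v : ℕ) : ℂ) ^ (-(τ * I))).re := ⟨1, hz⟩
  have e : (fun v => ((((g (y v) : ℝ) : ℂ) - ∫ t, ((g t : ℝ) : ℂ) ∂nu) *
      ((nm K v : ℕ) : ℂ) ^ (-(τ * I : ℂ))).re) =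
      fun v => g (y v) * (((nm K v : ℕ) : ℂ) ^ (-(τ * I))).re -
        (∫ t, g t ∂nu) * (((nm K v : ℕ) : ℂ) ^ (-(τ * I))).re := by
    funext v
    have e1 : ∫ t, ((g t : ℝ) : ℂ) ∂nu = ((∫ t, g t ∂nu : ℝ) : ℂ) := integral_ofReal
    rw [e1, ← Complex.ofReal_sub, Complex.re_ofReal_mul]
    ring
  rw [e, M_sub hN hV hb1 (hb2.const_mul _), M_const_mul hN hV hb2] at h1
  have h2 : (M (nm K) V fun v => (((nm K v : ℕ) : ℂ) ^ (-(τ * I))).re) =
      if τ = 0 then 1 else 0 := by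
    have h3 := mean_edge (F := K) (g := fun _ => (1 : ℂ)) (B := 1) (fun v => by simp) 1
      (mn_tendsto (by
        have := mn_const (K := K) 1
        simpa using this)) τ
    refine M_of_tendsto hV ?_
    unfold qt
    simpa only [one_mul] using h3
  rw [h2] at h1
  split_ifs at h1 ⊢ <;> linarith

/-- the second moment -/
theorem M_two {y : HeightOneSpectrum (𝓞 K) → An} {V : Ultrafilter ℝ}
    (hV : (V : Filter ℝ) ≤ 𝓝[>] 0) (hL : LH (nm K) V y nu) :
    (M (nm K) V fun v => (2 * Real.cos (y v)) ^ 2) = 1 := by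
  have h1 := M_nu hV hL (g := fun t => (2 * Real.cos t) ^ 2) (by fun_prop) 0
  have e : (fun v => (2 * Real.cos (y v)) ^ 2 *
      (((nm K v : ℕ) : ℂ) ^ (-(((0 : ℝ) : ℂ) * I))).re) = fun v => (2 * Real.cos (y v)) ^ 2 := by
    funext v
    simp
  rw [e, if_pos rfl] at h1
  rw [h1]
  have h2 := int_nu_cos (fun s => s ^ 2)
  rw [h2]
  have e2 : ∀ θ : ℝ, (2 * Real.cos θ) ^ 2 * Real.sin θ ^ 2 = 4 * (Real.sin θ ^ 2 * Real.cos θ ^ 2) :=
    fun θ => by ring
  simp only [e2]
  rw [intervalIntegral.integral_const_mul, integral_sin_sq_mul_cos_sq]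
  have h3 : Real.sin (4 * Real.pi) = 0 := by
    have := Real.sin_nat_mul_pi 4
    exact_mod_cast this
  rw [h3]
  have := Real.pi_pos
  simp
  field_simp
  ring

/-- the first moment -/
theorem M_first {y : HeightOneSpectrum (𝓞 K) → An} {V : Ultrafilter ℝ}
    (hV : (V : Filter ℝ) ≤ 𝓝[>] 0) (hL : LH (nm K) V y nu) (τ : ℝ) :
    (M (nm K) V fun v => (2 * Real.cos (y v)) * (((nm K v : ℕ) : ℂ) ^ (-(τ * I))).re) = 0 := by
  rw [M_nu hV hL (g := fun t => 2 * Real.cos t) (by fun_prop) τ]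
  have h2 := int_nu_cos (fun s => s)
  rw [h2]
  have e2 : ∀ θ : ℝ, (2 * Real.cos θ) * Real.sin θ ^ 2 = 2 * (Real.sin θ ^ 2 * Real.cos θ) :=
    fun θ => by ring
  simp only [e2]
  rw [intervalIntegral.integral_const_mul]
  have h3 := integral_sin_pow_mul_cos_pow_odd (a := 0) (b := Real.pi) 2 0
  simp only [mul_zero, zero_add, pow_one, pow_zero, mul_one, Real.sin_zero, Real.sin_pi,
    intervalIntegral.integral_same] at h3
  rw [h3]
  simp

end

end Pool.Agent.TH553.GP
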