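import Pool.Agent.TH553.GP.Gap

set_option autoImplicit false
set_option linter.unusedSectionVars false

/-!
# The law of Sato and Tate on the interval, and its distance to finite sets
-/

namespace Pool.Agent.TH553.GP

open Complex Filter Topology ComplexConjugate MeasureTheory Pool.Agent.W540.BE
  Pool.Agent.TH553.RS Pool.Agent.TH553.ST Pool.Agent.H341R2

/-- the interval of the angles -/
abbrev An : Type := Set.Icc (0 : ℝ) Real.pi

/-- the density -/
noncomputable def dens (θ : ℝ) : ℝ := 2 / Real.pi * Real.sin θ ^ 2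

theorem dens_cont : Continuous dens := by unfold dens; fun_prop

theorem dens_nonneg (θ : ℝ) : 0 ≤ dens θ := by
  unfold dens
  have := Real.pi_pos
  positivity

/-- the law of Sato and Tate -/
noncomputable def nu : Measure An :=
  Measure.comap Subtype.val (volume.withDensity fun θ : ℝ => ENNReal.ofReal (dens θ))

theorem int_dens : ∫ θ in (0 : ℝ)..Real.pi, dens θ = 1 := by
  unfold dens
  rw [intervalIntegral.integral_const_mul, integral_sin_sq]
  have := Real.pi_pos
  simp

instance : IsProbabilityMeasure nu := ⟨by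
  have hpi := Real.pi_pos.le
  unfold nu
  rw [Measure.comap_apply _ Subtype.val_injective
    (fun s hs => (MeasurableSet.subtype_image measurableSet_Icc hs)) _ MeasurableSet.univ,
    Set.image_univ, Subtype.range_coe]
  rw [withDensity_apply _ measurableSet_Icc, ← ofReal_integral_eq_lintegral_ofReal
    (dens_cont.integrableOn_Icc) (Filter.Eventually.of_forall fun θ => dens_nonneg θ),
    integral_Icc_eq_integral_Ioc, ← intervalIntegral.integral_of_le hpi, int_dens]
  simp⟩

theorem int_nu {E : Type*} [NormedAddCommGroup E] [NormedSpace ℝ E] (g : ℝ → E) :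
    ∫ t : An, g t ∂nu = ∫ θ in (0 : ℝ)..Real.pi, dens θ • g θ := by
  unfold nu
  rw [integral_subtype_comap measurableSet_Icc (f := g),
    setIntegral_withDensity_eq_setIntegral_toReal_smul₀]
  · rw [integral_Icc_eq_integral_Ioc, ← intervalIntegral.integral_of_le Real.pi_pos.le]
    refine intervalIntegral.integral_congr fun θ _ => ?_
    rw [ENNReal.toReal_ofReal (dens_nonneg θ)]
  · exact (ENNReal.measurable_ofReal.comp dens_cont.measurable).aemeasurable
  · exact Filter.Eventually.of_forall fun _ => ENNReal.ofReal_lt_top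
  · exact measurableSet_Icc

/-- the bump function -/
noncomputable def bump (h u : ℝ) : ℝ := max (h ^ 2 - u ^ 2) 0

theorem bump_cont (h : ℝ) : Continuous (bump h) := by unfold bump; fun_prop

theorem bump_nonneg (h u : ℝ) : 0 ≤ bump h u := le_max_right _ _

theorem int_bump {h : ℝ} (hh : 0 < h) {a b : ℝ} (hab : a ≤ b) :
    ∫ u in a..b, bump h u ≤ 4 * h ^ 3 / 3 := by
  have e1 : bump h = (Set.Icc (-h) h).indicator fun u => h ^ 2 - u ^ 2 := by
    funext u
    unfold bump
    by_cases hu : u ∈ Set.Icc (-h) h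
    · rw [Set.indicator_of_mem hu]
      refine max_eq_left ?_
      have : u ^ 2 ≤ h ^ 2 := sq_le_sq' hu.1 hu.2
      linarith
    · rw [Set.indicator_of_notMem hu]
      refine max_eq_right ?_
      rw [Set.mem_Icc, not_and_or, not_le, not_le] at hu
      rcases hu with hu | hu <;> nlinarith
  have e2 : ∫ u in Set.Icc (-h) h, (h ^ 2 - u ^ 2) = 4 * h ^ 3 / 3 := by
    rw [integral_Icc_eq_integral_Ioc, ← intervalIntegral.integral_of_le (by linarith),
      intervalIntegral.integral_sub (by simp) (by simp), intervalIntegral.integral_const,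
      integral_pow]
    simp only [smul_eq_mul]
    push_cast
    ring
  rw [intervalIntegral.integral_of_le hab, e1, setIntegral_indicator measurableSet_Icc, ← e2]
  refine setIntegral_mono_set ?_ ?_ ?_
  · exact (by fun_prop : Continuous fun u : ℝ => h ^ 2 - u ^ 2).integrableOn_Icc
  · refine (ae_restrict_iff' measurableSet_Icc).2 (Filter.Eventually.of_forall fun u hu => ?_)
    have : u ^ 2 ≤ h ^ 2 := sq_le_sq' hu.1 hu.2
    simp only [Pi.zero_apply]
    linarith
  · exact LE.le.eventuallyLE (Set.inter_subset_right)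

theorem int_bump_nu {h : ℝ} (hh : 0 < h) (s : ℝ) :
    ∫ t : An, bump h (2 * Real.cos t - s) ∂nu ≤ 4 * h ^ 3 / (3 * Real.pi) := by
  have hpi := Real.pi_pos
  rw [int_nu (fun θ => bump h (2 * Real.cos θ - s))]
  have hc1 : Continuous fun θ : ℝ => bump h (2 * Real.cos θ - s) :=
    (bump_cont h).comp (by fun_prop)
  have h1 : ∫ θ in (0 : ℝ)..Real.pi, dens θ • bump h (2 * Real.cos θ - s) ≤
      ∫ θ in (0 : ℝ)..Real.pi, (2 / Real.pi) * (Real.sin θ * bump h (2 * Real.cos θ - s)) := by
    refine intervalIntegral.integral_mono_on hpi.le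
      ((dens_cont.smul hc1).intervalIntegrable _ _)
      ((continuous_const.mul (Real.continuous_sin.mul hc1)).intervalIntegrable _ _)
      fun θ hθ => ?_
    rw [smul_eq_mul]
    unfold dens
    rw [mul_assoc]
    refine mul_le_mul_of_nonneg_left ?_ (by positivity)
    refine mul_le_mul_of_nonneg_right ?_ (bump_nonneg _ _)
    have h2 := Real.sin_nonneg_of_mem_Icc hθ
    have h3 := Real.sin_le_one θ
    nlinarith
  refine h1.trans ?_
  rw [intervalIntegral.integral_const_mul]
  have h2 := intervalIntegral.integral_comp_mul_deriv (a := 0) (b := Real.pi)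
    (f := fun θ => 2 * Real.cos θ - s) (f' := fun θ => 2 * (-Real.sin θ)) (g := bump h)
    (fun θ _ => ((Real.hasDerivAt_cos θ).const_mul 2).sub_const s) (by fun_prop) (bump_cont h)
  simp only [Function.comp_apply, Real.cos_zero, Real.cos_pi] at h2
  have h3 : ∫ θ in (0 : ℝ)..Real.pi, Real.sin θ * bump h (2 * Real.cos θ - s) =
      1 / 2 * ∫ u in (2 * -1 - s)..(2 * 1 - s), bump h u := by
    rw [intervalIntegral.integral_symm (2 * 1 - s) (2 * -1 - s), ← h2,
      ← intervalIntegral.integral_neg, ← intervalIntegral.integral_const_mul]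
    refine intervalIntegral.integral_congr fun θ _ => ?_
    ring
  rw [h3]
  have h4 := int_bump hh (a := 2 * -1 - s) (b := 2 * 1 - s) (by linarith)
  have h5 : 2 / Real.pi * (1 / 2 * ∫ u in (2 * -1 - s)..(2 * 1 - s), bump h u) ≤
      2 / Real.pi * (1 / 2 * (4 * h ^ 3 / 3)) :=
    mul_le_mul_of_nonneg_left (mul_le_mul_of_nonneg_left h4 (by norm_num)) (by positivity)
  refine h5.trans (le_of_eq ?_)
  field_simp

/-- the trace -/
noncomputable def Tr (t : An) : ℂ := ((2 * Real.cos (t : ℝ) : ℝ) : ℂ)

theorem Tr_cont : Continuous Tr := by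
  unfold Tr
  exact Complex.continuous_ofReal.comp (by fun_prop)

/-- the distance of the law of Sato and Tate to finite sets -/
theorem dist_semi {C : Type} [Fintype C] [Nonempty C] (S : C → ℂ) :
    Real.pi ^ 2 / (12 * (Fintype.card C : ℝ) ^ 2) ≤ ∫ t, dm Tr S t ∂nu := by
  have hpi := Real.pi_pos
  have hr : (0 : ℝ) < Fintype.card C := by exact_mod_cast Fintype.card_pos
  set h : ℝ := Real.pi / (2 * Fintype.card C) with hh
  have hh0 : 0 < h := by rw [hh]; positivity
  have hcb : ∀ c, Continuous fun t : An => bump h (2 * Real.cos t - (S c).re) := fun c =>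
    (bump_cont h).comp (by fun_prop)
  have hcd : Continuous fun t => dm Tr S t := by
    unfold dm
    exact Continuous.finset_inf'_apply _ fun c _ => ((Tr_cont.sub continuous_const).norm.pow 2)
  have h1 : ∀ t : An, h ^ 2 - ∑ c, bump h (2 * Real.cos t - (S c).re) ≤ dm Tr S t := by
    intro t
    unfold dm
    refine Finset.le_inf' _ _ fun c _ => ?_
    have h2 : bump h (2 * Real.cos t - (S c).re) ≤ ∑ c, bump h (2 * Real.cos t - (S c).re) :=
      Finset.single_le_sum (f := fun c => bump h (2 * Real.cos t - (S c).re))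
        (fun _ _ => bump_nonneg _ _) (Finset.mem_univ c)
    have h3 : h ^ 2 - (2 * Real.cos t - (S c).re) ^ 2 ≤ bump h (2 * Real.cos t - (S c).re) :=
      le_max_left _ _
    have h4 : (2 * Real.cos t - (S c).re) ^ 2 ≤ ‖Tr t - S c‖ ^ 2 := by
      have h5 := Complex.abs_re_le_norm (Tr t - S c)
      have h6 : (Tr t - S c).re = 2 * Real.cos t - (S c).re := by
        unfold Tr
        rw [Complex.sub_re, Complex.ofReal_re]
      rw [h6] at h5
      rw [← sq_abs (2 * Real.cos t - (S c).re)]
      exact pow_le_pow_left₀ (abs_nonneg _) h5 2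
    linarith
  have h2 : ∫ t : An, (h ^ 2 - ∑ c, bump h (2 * Real.cos t - (S c).re)) ∂nu ≤
      ∫ t, dm Tr S t ∂nu :=
    integral_mono (intY (continuous_const.sub (continuous_finsetSum _ fun c _ => hcb c)))
      (intY hcd) h1
  refine le_trans ?_ h2
  rw [integral_sub (integrable_const _) (intY (continuous_finsetSum _ fun c _ => hcb c)),
    integral_finsetSum _ fun c _ => intY (hcb c)]
  have h3 : ∑ c, ∫ t : An, bump h (2 * Real.cos t - (S c).re) ∂nu ≤
      ∑ _c : C, 4 * h ^ 3 / (3 * Real.pi) := Finset.sum_le_sum fun c _ => int_bump_nu hh0 _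
  rw [Finset.sum_const, Finset.card_univ, nsmul_eq_mul] at h3
  have h4 : ∫ _ : An, h ^ 2 ∂nu = h ^ 2 := by simp
  rw [h4]
  have h5 : h ^ 2 - (Fintype.card C : ℝ) * (4 * h ^ 3 / (3 * Real.pi)) =
      Real.pi ^ 2 / (12 * (Fintype.card C : ℝ) ^ 2) := by
    rw [hh]
    field_simp
    ring
  linarith

end Pool.Agent.TH553.GP
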